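import Pool.Agent.D0H75.HS.Win
import Pool.Agent.R351.GD.Hy.Tup

/-!
# Hyperelliptic families: fibres over `S`-units
-/

set_option autoImplicit false

open Module Filter Topology
open Polynomial (X C aeval)
open scoped Polynomial

namespace Pool.Agent.D0H75.HS

open Pool.Agent.Y118.HP Pool.Agent.Y37.GF
open Pool.Agent.Y118.HG hiding zz zz_im zz_im_neg zz_im_pos zz_real zz_mem Comp diffOn_evs IdM mem_IdM_of mem_of_IdM MonS MonL mem_MonL pf_MonL crossing Sep one_crossing Tk_MonL sp_MonL mem_MonS func_inv_sh exists_P li_shift small_arg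
open Pool.Agent.R351.GD Pool.Agent.R351.GD.Hy
open Pool.Agent.R351.GD.H (sbE of_gen relK_fin)
open Pool.Agent.D0H75.LS (pp pp_pos pp_ne pp_add cov loglog16)

variable {n : ℕ}

/-- the fibres at small points -/
theorem good_small (hn : Even n) {a : Fin n → ℝ} (ha : StrictMono a) {m : Fin (n + 1)} {f : ℚ[X]}
    (h0 : InGap a m 0) (hf : f.map (algebraMap ℚ ℝ) = ∏ i, (X - C (a i))) (Δ : ZDat n a m f) :
    ∃ ε : ℝ, 0 < ε ∧ ∀ x : ℝ, |x| < ε → (Ez Δ.Z x ∈ SpS ℝ n ∧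
      cd ((Ez Δ.Z x).map (algebraMap ℝ ℂ)) ≠ 0) ∧ (InGap a m x ∧
      CM a m x = AC a m Δ.V * (Ez Δ.Z x).map (algebraMap ℝ ℂ) * Δ.U.map (aeval ((x : ℝ) : ℂ))) := by
  obtain ⟨ε, hε, hball⟩ := Metric.eventually_nhds_iff.1
    (((Ez_mem hn ha h0 hf Δ).and (Ez_cd hn ha h0 hf Δ)).and (CM_val hn ha h0 Δ))
  exact ⟨ε, hε, fun x hx => hball (by rw [dist_zero_right, Real.norm_eq_abs]; exact hx)⟩

/-- all relations of degree at most `δ` over number fields of degree at most `δ` hold on the fibres of the torsors -/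
def GenQ {N : ℕ} (δ : ℕ) {υ : Type} (w : υ → ℂ) (a : Fin N → Fin n → ℝ) (m : Fin N → Fin (n + 1)) (f : Fin N → ℚ[X])
    (x : Fin N → ℚ) : Prop :=
  ∀ F : IntermediateField ℚ ℂ, FiniteDimensional ℚ F → finrank ℚ F ≤ δ →
    ∀ P : MvPolynomial (υ ⊕ Fin N × Fin n × Fin n) F, P.totalDegree ≤ δ →
    MvPolynomial.aeval (Sum.elim w (px fun l => CM (a l) (m l) ((x l : ℚ) : ℝ))) P = 0 →
    ∀ Y ∈ Fib (fun l => (Qp n (f l)).map (aeval ((x l : ℚ) : ℂ))),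
      MvPolynomial.aeval (Sum.elim w (px Y)) P = 0

/-- from the coordinates to the periods -/
theorem genQ_of (hn : Even n) {N : ℕ} {a : Fin N → Fin n → ℝ} (ha : ∀ l, StrictMono (a l)) {m : Fin N → Fin (n + 1)}
    {f : Fin N → ℚ[X]} (h0 : ∀ l, InGap (a l) (m l) 0)
    (hf : ∀ l, (f l).map (algebraMap ℚ ℝ) = ∏ i, (X - C (a l i))) (Δ : ∀ l, ZDat n (a l) (m l) (f l)) :
    ∃ c : ℕ, ∀ (δ : ℕ) (υ : Type) (w : υ → ℂ) (z : Fin N → ℚ),
      (∀ l, (Ez (Δ l).Z ((z l : ℚ) : ℝ) ∈ SpS ℝ n ∧ cd ((Ez (Δ l).Z ((z l : ℚ) : ℝ)).map (algebraMap ℝ ℂ)) ≠ 0) ∧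
        CM (a l) (m l) ((z l : ℚ) : ℝ) = AC (a l) (m l) (Δ l).V * (Ez (Δ l).Z ((z l : ℚ) : ℝ)).map (algebraMap ℝ ℂ) *
        (Δ l).U.map (aeval ((((z l : ℚ) : ℝ)) : ℂ))) →
      ¬ GenQ δ w a m f z → RelK (δ * c) (Sum.elim w fun x : Fin N × Fin n × Fin n => AC (a x.1) (m x.1) (Δ x.1).V x.2.1 x.2.2)
        (fun p : Fin N × Sy n => vQ (Δ p.1) ((z p.1 : ℚ) : ℝ) p.2) := by
  classical
  obtain ⟨c, hc⟩ := algY hn N
  refine ⟨c + 1, fun δ υ w z hgood hbad => ?_⟩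
  by_contra hrel
  apply hbad
  intro F hF hFd P hP hP0 Y hY
  set w' : υ ⊕ Fin N × Fin n × Fin n → ℂ := Sum.elim w fun x => AC (a x.1) (m x.1) (Δ x.1).V x.2.1 x.2.2 with hw'
  set Ai : Fin N → Fin n → Fin n → υ ⊕ Fin N × Fin n × Fin n := fun l i j => Sum.inr (l, i, j) with hAi
  have hAw : ∀ l, Aw w' Ai l = AC (a l) (m l) (Δ l).V := by
    intro l
    ext i j
    rfl
  have castZ : ∀ l, ((((z l : ℚ) : ℝ)) : ℂ) = ((z l : ℚ) : ℂ) := fun l => by simp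
  set U : Fin N → Matrix (Fin n) (Fin n) ℚ := fun l => (Δ l).U.map (Polynomial.eval (z l)) with hU
  have hUc : ∀ l, (U l).map (algebraMap ℚ ℂ) = (Δ l).U.map (aeval (z l : ℂ)) := fun l => map_rat _ _
  set Z : Fin N → Matrix (Fin n) (Fin n) ℂ := fun l => (Ez (Δ l).Z ((z l : ℚ) : ℝ)).map (algebraMap ℝ ℂ) with hZ
  have hZsp : ∀ l, Z l ∈ SpS ℂ n := fun l => SpS_map _ (hgood l).1.1
  have hCM : ∀ l, Aw w' Ai l * Z l * (U l).map (algebraMap ℚ ℂ) = CM (a l) (m l) ((z l : ℚ) : ℝ) := by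
    intro l
    rw [hAw, hUc, (hgood l).2, castZ]
  have hδ : δ ≤ δ * (c + 1) := Nat.le_mul_of_pos_right _ (Nat.succ_pos c)
  have h1 := hc F (υ ⊕ Fin N × Fin n × Fin n) w' Ai U δ Z hZsp (fun l => (hgood l).1.2) (fun P' hP' hP'0 y => by
      by_cases hne : MvPolynomial.aeval (Sum.elim (fun j => MvPolynomial.C (w' j)) MvPolynomial.X) P' =
          (0 : MvPolynomial (Fin N × Sy n) ℂ)
      · exact of_gen hne y
      · exact absurd ⟨F, hF, hFd.trans hδ, P', hP'.trans (Nat.mul_le_mul_left _ (Nat.le_succ c)), hP'0, hne⟩ hrel)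
    (MvPolynomial.rename (Sum.map Sum.inl id) P) ((MvPolynomial.totalDegree_rename_le _ _).trans hP) (by
      rw [MvPolynomial.aeval_rename, ← hP0]
      congr 2
      funext v
      rcases v with v | ⟨l, i, j⟩
      · rfl
      · show (Aw w' Ai l * Z l * (U l).map (algebraMap ℚ ℂ)) i j = CM (a l) (m l) ((z l : ℚ) : ℝ) i j
        rw [hCM])
  -- the points of the fibre
  have hI := Complex.I_ne_zero
  have hpi : (Real.pi : ℂ) ≠ 0 := by exact_mod_cast Real.pi_ne_zero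
  have hc0 : (-4 * Real.pi * Complex.I : ℂ) ≠ 0 := mul_ne_zero (mul_ne_zero (by norm_num) hpi) hI
  have hAJ : ∀ l, AC (a l) (m l) (Δ l).V * jm ℂ n * (AC (a l) (m l) (Δ l).V).transpose =
      (-4 * Real.pi * Complex.I : ℂ) • jm ℂ n := fun l => AC_J hn (ha l) (h0 l) (hf l) (Δ l).VJ
  have hdet : ∀ l, IsUnit (AC (a l) (m l) (Δ l).V).det := by
    intro l
    rw [isUnit_iff_ne_zero]
    intro h2
    have := congrArg Matrix.det (hAJ l)
    rw [Matrix.det_mul, Matrix.det_mul, h2, zero_mul, zero_mul, Matrix.det_smul] at this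
    exact mul_ne_zero (pow_ne_zero _ hc0) (jm_det hn) this.symm
  have hfib : ∀ j, ((AC (a j) (m j) (Δ j).V)⁻¹ * (Y j * (Δ j).V.map (aeval (z j : ℂ)))) ∈ SpS ℂ n ∧
        AC (a j) (m j) (Δ j).V * ((AC (a j) (m j) (Δ j).V)⁻¹ * (Y j * (Δ j).V.map (aeval (z j : ℂ)))) *
          (U j).map (algebraMap ℚ ℂ) = Y j := by
    intro j
    have h2 : AC (a j) (m j) (Δ j).V * ((AC (a j) (m j) (Δ j).V)⁻¹ * (Y j * (Δ j).V.map (aeval (z j : ℂ)))) =
        Y j * (Δ j).V.map (aeval (z j : ℂ)) := by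
      rw [← Matrix.mul_assoc, Matrix.mul_nonsing_inv _ (hdet j), one_mul]
    refine ⟨SpS_of_eqC hn hc0 (hAJ j) ?_, ?_⟩
    · rw [h2]
      exact CM_J (hY j) (Δ j)
    · rw [h2, hUc, Matrix.mul_assoc, ← map_aevalC_mul, (Δ j).VU, map_aevalC_one, mul_one]
  have h3 := h1 (fun j => (AC (a j) (m j) (Δ j).V)⁻¹ * (Y j * (Δ j).V.map (aeval (z j : ℂ)))) fun j => (hfib j).1
  rw [MvPolynomial.aeval_rename] at h3
  rw [← h3]
  congr 2
  funext v
  rcases v with v | ⟨l, i, j⟩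
  · rfl
  · show Y l i j = (Aw w' Ai l * ((AC (a l) (m l) (Δ l).V)⁻¹ * (Y l * (Δ l).V.map (aeval (z l : ℂ)))) *
      (U l).map (algebraMap ℚ ℂ)) i j
    rw [hAw, (hfib l).2]

theorem box_nonneg {N : ℕ} (Λ : Fin N → Finset ℚ) :
    (0 : ℝ) ≤ ∑ j, ∏ i, if i = j then (1 : ℝ) else ((Λ i).card : ℝ) :=
  Finset.sum_nonneg fun j _ => Finset.prod_nonneg fun i _ => by split_ifs <;> positivity

theorem box_eq {N : ℕ} (Λ : Fin N → Finset ℚ) :
    (∑ j, ∏ i, if i = j then (1 : ℝ) else ((Λ i).card : ℝ)) = ∑ j, ∏ i ∈ Finset.univ.erase j, ((Λ i).card : ℝ) := by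
  refine Finset.sum_congr rfl fun j _ => ?_
  rw [← Finset.prod_erase Finset.univ (a := j) (by simp)]
  refine Finset.prod_congr rfl fun i hi => ?_
  rw [if_neg (Finset.ne_of_mem_erase hi)]

/-- small quotients -/
theorem small_quot {ε : ℝ} (hε : 0 < ε) : ∃ c : ℕ, ∀ (A B M : ℕ), 1 ≤ A → c ≤ M → (A + 1) ^ (M + 1) ≤ B →
    |(((A : ℚ) / B : ℚ) : ℝ)| < ε := by
  obtain ⟨c, hc⟩ := pow_unbounded_of_one_lt (1 / ε) (show (1 : ℝ) < 2 by norm_num)
  refine ⟨c, fun A B M hA hM h => ?_⟩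
  have h1 : A * 2 ^ c < B := by
    refine lt_of_lt_of_le ?_ h
    rw [pow_succ, mul_comm]
    have h2 : 2 ^ c ≤ (A + 1) ^ M := (Nat.pow_le_pow_right (by norm_num) hM).trans (Nat.pow_le_pow_left (by omega) _)
    have h3 : 0 < 2 ^ c := by positivity
    calc 2 ^ c * A ≤ (A + 1) ^ M * A := Nat.mul_le_mul_right _ h2
      _ < (A + 1) ^ M * (A + 1) := Nat.mul_lt_mul_of_pos_left (Nat.lt_succ_self A) (by positivity)
  have hB0 : 0 < B := lt_of_le_of_lt (Nat.zero_le _) h1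
  have hB : (0 : ℝ) < B := by exact_mod_cast hB0
  have h2 : (A : ℝ) * 2 ^ c < B := by exact_mod_cast h1
  have hA0 : (0 : ℝ) < A := by exact_mod_cast hA
  push_cast
  rw [abs_of_nonneg (by positivity), div_lt_iff₀ hB]
  have h4 : 1 < 2 ^ c * ε := by
    have h5 : 1 / ε * ε = 1 := by field_simp
    rw [← h5]
    exact mul_lt_mul_of_pos_right hc hε
  calc (A : ℝ) < A * (2 ^ c * ε) := lt_mul_of_one_lt_right hA0 h4
    _ = ε * (A * 2 ^ c) := by ring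
    _ ≤ ε * B := mul_le_mul_of_nonneg_left h2.le hε.le

open Classical in
/-- **tuples of fibres over `S`-units** -/
theorem tupQ (hn : Even n) {N : ℕ} {a : Fin N → Fin n → ℝ} (ha : ∀ l, StrictMono (a l)) {m : Fin N → Fin (n + 1)}
    {f : Fin N → ℚ[X]} (h0 : ∀ l, InGap (a l) (m l) 0)
    (hf : ∀ l, (f l).map (algebraMap ℚ ℝ) = ∏ i, (X - C (a l i))) (q s : ℕ) :
    ∃ C₀ : ℕ, ∀ (δ : ℕ) (b : Fin N → Fin s → ℕ), (∀ l i, 2 ≤ b l i) → ∀ (υ : Type) [Fintype υ], Fintype.card υ = q →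
      ∀ (w : υ → ℂ) (Y : ℕ), 16 ≤ Y → ∀ Λ : Fin N → Finset ℚ,
      (∀ l, ∀ x ∈ Λ l, ∃ u v : Fin s → ℕ, x = (pp (b l) u : ℚ) / pp (b l) v ∧ pp (b l) v ≤ Y ∧
        (pp (b l) u + 1) ^ ((δ + 2) ^ C₀) ≤ pp (b l) v) →
      (((Fintype.piFinset Λ).filter fun x =>
        ¬ ((∀ l, InGap (a l) (m l) ((x l : ℚ) : ℝ)) ∧ GenQ δ w a m f x)).card : ℝ) ≤
      ((δ : ℝ) + 2) ^ C₀ * Real.log (Real.log Y) * ∑ j, ∏ i, if i = j then (1 : ℝ) else ((Λ i).card : ℝ) := by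
  have Δ : ∀ l, ZDat n (a l) (m l) (f l) := fun l =>
    Classical.choice (exists_ZDat hn (ha l) (h0 l) (hf l) (coeff_ne_of_gap (h0 l) (hf l)))
  choose ε hε hgood using fun l => good_small hn (ha l) (h0 l) (hf l) (Δ l)
  choose c₁ hc₁ using fun l => small_quot (hε l)
  obtain ⟨c, hc⟩ := genQ_of hn ha h0 hf Δ
  obtain ⟨C₁, hC₁⟩ := vQ_tuples hn ha h0 hf Δ (q + N * (n * n)) s
  obtain ⟨d, hd⟩ : PB fun δ => (δ * c + 2) ^ C₁ := ((PB.id.mul (PB.const c)).add (PB.const 2)).pow C₁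
  refine ⟨∑ l, c₁ l + 1 + d, fun δ b hb υ _ hυ w Y hY Λ hΛ => ?_⟩
  set C₀ := ∑ l, c₁ l + 1 + d with hC
  have hδ0 : (0 : ℝ) ≤ δ := Nat.cast_nonneg δ
  have hLL := loglog16 hY
  have hpow : (δ * c + 2) ^ C₁ ≤ (δ + 2) ^ C₀ := (hd δ).trans (Nat.pow_le_pow_right (by omega) (by omega))
  have hυ' : Fintype.card (υ ⊕ Fin N × Fin n × Fin n) = q + N * (n * n) := by
    rw [Fintype.card_sum, Fintype.card_prod, Fintype.card_prod, Fintype.card_fin, Fintype.card_fin, hυ]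
  set w₁ : υ ⊕ Fin N × Fin n × Fin n → ℂ := Sum.elim w fun x => AC (a x.1) (m x.1) (Δ x.1).V x.2.1 x.2.2 with hw₁
  set w' : Fin (q + N * (n * n)) → ℂ := w₁ ∘ (Fintype.equivFinOfCardEq hυ').symm with hw'
  have h1 := hC₁ (δ * c) b hb w' Y hY Λ (fun l x hx => by
    obtain ⟨u, v, e1, e2, e3⟩ := hΛ l x hx
    refine ⟨u, v, e1, e2, le_trans ?_ e3⟩
    exact (Nat.pow_le_pow_left (Nat.le_succ _) _).trans (Nat.pow_le_pow_right (Nat.succ_pos _) hpow))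
  have hsub : ((Fintype.piFinset Λ).filter fun x =>
        ¬ ((∀ l, InGap (a l) (m l) ((x l : ℚ) : ℝ)) ∧ GenQ δ w a m f x)) ⊆
      (Fintype.piFinset Λ).filter fun t =>
        RelK (δ * c) w' (fun p : Fin N × Sy n => vQ (Δ p.1) ((t p.1 : ℚ) : ℝ) p.2) := by
    intro x hx
    obtain ⟨hx1, hx2⟩ := Finset.mem_filter.1 hx
    have hx3 := Fintype.mem_piFinset.1 hx1
    have hg := fun l => hgood l ((x l : ℚ) : ℝ) (by
      obtain ⟨u, v, e1, e2, e3⟩ := hΛ l (x l) (hx3 l)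
      have h4 : c₁ l ≤ ∑ l, c₁ l := Finset.single_le_sum (f := c₁) (fun _ _ => Nat.zero_le _) (Finset.mem_univ l)
      have h5 : C₀ < (δ + 2) ^ C₀ := Nat.lt_pow_self (by omega)
      rw [e1]
      refine hc₁ l (pp (b l) u) (pp (b l) v) ((δ + 2) ^ C₀ - 1) (pp_pos (hb l) u) (by omega) ?_
      rw [Nat.sub_add_cancel (by omega)]
      exact e3)
    refine Finset.mem_filter.2 ⟨hx1, relK_fin hυ' (hc δ υ w x (fun l => ⟨(hg l).1, (hg l).2.2⟩) fun h =>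
      hx2 ⟨fun l => (hg l).2.1, h⟩)⟩
  refine (Nat.cast_le.2 (Finset.card_le_card hsub)).trans (h1.trans ?_)
  refine mul_le_mul_of_nonneg_right (mul_le_mul_of_nonneg_right ?_ (by linarith)) (box_nonneg Λ)
  exact_mod_cast hpow

/-- the statement for a tuple of fibres -/
def GoodQ {q N : ℕ} (δ : ℕ) (w : Fin q → ℂ) (a : Fin N → Fin n → ℝ) (m : Fin N → Fin (n + 1)) (f : Fin N → ℚ[X])
    (x : Fin N → ℚ) : Prop :=
  (∀ j, StrictMono (er (a j) (m j) ((x j : ℚ) : ℝ))) ∧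
    ((fun j => Matrix.of (cper (er (a j) (m j) ((x j : ℚ) : ℝ)))), (2 * Real.pi * Complex.I : ℂ)) ∈
      TorF (n := n) (fun j => f j * (X - C (x j))) ∧
    DG (fun j => f j * (X - C (x j)))
      (pt (fun j => Matrix.of (cper (er (a j) (m j) ((x j : ℚ) : ℝ)))) (2 * Real.pi * Complex.I)) δ δ ∧
    RGw w (pt (fun j => Matrix.of (cper (er (a j) (m j) 0))) (2 * Real.pi * Complex.I))
      (fun j => f j * (X - C (x j))) (fun j => Matrix.of (cper (er (a j) (m j) ((x j : ℚ) : ℝ)))) δ δ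

theorem goodQ_of (hn : Even n) {q N : ℕ} {a : Fin N → Fin n → ℝ} (ha : ∀ l, StrictMono (a l)) {m : Fin N → Fin (n + 1)}
    {f : Fin N → ℚ[X]} (hf : ∀ l, (f l).map (algebraMap ℚ ℝ) = ∏ i, (X - C (a l i))) (δ : ℕ) (w : Fin q → ℂ)
    (z : Fin N → ℚ) (hgap : ∀ l, InGap (a l) (m l) ((z l : ℚ) : ℝ))
    (hg : GenQ (δ * δ + δ + 1) (Sum.elim w (pt (fun j => CM (a j) (m j) 0) (2 * Real.pi * Complex.I))) a m f z) :
    GoodQ δ w a m f z := by
  have hpt : (fun j => Matrix.of (cper (er (a j) (m j) ((z j : ℚ) : ℝ)))) =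
      fun j => CM (a j) (m j) (((z j : ℚ)) : ℝ) := by
    funext j
    rfl
  refine ⟨fun j => er_of_inGap (ha j) (hgap j), ?_, ?_, ?_⟩
  · rw [TorF_eq, hpt]
    refine ⟨?_, fun j => CM_mem hn (ha j) (hf j) (hgap j)⟩
    have := Complex.I_ne_zero
    have h2 : (Real.pi : ℂ) ≠ 0 := by exact_mod_cast Real.pi_ne_zero
    exact mul_ne_zero (mul_ne_zero two_ne_zero h2) this
  · intro K _ _ φ P hK hd hPv x hx
    rw [TorF_eq] at hx
    rw [hpt] at hPv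
    have h3 := k_of_fib hn a ha m f hf δ δ z hgap (fun M hM hMv Y hY => by
      have hv : ∀ (Y : Fin N → Matrix (Fin n) (Fin n) ℂ),
          MvPolynomial.aeval (Sum.elim (Sum.elim w (pt (fun j => CM (a j) (m j) 0) (2 * Real.pi * Complex.I))) (px Y))
            ((MvPolynomial.rename (fun o : Option (Fin N × Fin n × Fin n) =>
              o.elim (Sum.inl (Sum.inr none)) Sum.inr) M).map (algebraMap ℚ (⊥ : IntermediateField ℚ ℂ))) =
          MvPolynomial.aeval (pt Y (2 * Real.pi * Complex.I)) M := by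
        intro Y
        rw [MvPolynomial.aeval_map_algebraMap, MvPolynomial.aeval_rename]
        congr 2
        funext o
        rcases o with _ | o <;> rfl
      have h4 := hg ⊥ inferInstance (by rw [IntermediateField.finrank_bot]; omega)
        ((MvPolynomial.rename (fun o : Option (Fin N × Fin n × Fin n) =>
              o.elim (Sum.inl (Sum.inr none)) Sum.inr) M).map (algebraMap ℚ (⊥ : IntermediateField ℚ ℂ)))
        (((totalDegree_map_le _ _).trans (MvPolynomial.totalDegree_rename_le _ _)).trans (hM.trans (by omega)))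
        (by rw [hv]; exact hMv) Y hY
      rw [hv] at h4
      exact h4) K hK φ P hd (by rw [MvPolynomial.aeval_eq_eval]; exact hPv) x hx
    rw [MvPolynomial.aeval_eq_eval] at h3
    exact h3
  · intro K _ _ φ P hK hd hPv x hx hx2
    rw [TorF_eq] at hx
    obtain ⟨K', hK'f, P', hK'D, hP'd, hP'v⟩ := abs_field φ hK P
    rw [← hP'v] at hPv ⊢
    have h5 : x.1 ∈ Fib (fun i : Fin N => (Qp n (f i)).map (aeval ((z i : ℚ) : ℂ))) := by
      intro j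
      have := hx.2 j
      rw [hx2] at this
      exact this
    exact hg K' hK'f (hK'D.trans (by omega)) P' ((hP'd.trans hd).trans (by omega)) hPv x.1 h5

open Classical in
/-- **the final form** -/
theorem tfinS (hn : Even n) (N q s : ℕ) (a : Fin N → Fin n → ℝ) (f : Fin N → ℚ[X])
    (hf : ∀ l, (f l).map (algebraMap ℚ ℝ) = ∏ i, (X - C (a l i))) (m : Fin N → Fin (n + 1))
    (h0 : ∀ l, StrictMono (er (a l) (m l) 0)) :
    ∃ C₀ : ℕ, ∀ (δ : ℕ) (b : Fin N → Fin s → ℕ), (∀ l i, 2 ≤ b l i) → ∀ (w : Fin q → ℂ) (Y : ℕ), 16 ≤ Y →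
      ∀ Λ : Fin N → Finset ℚ,
      (∀ l, ∀ x ∈ Λ l, ∃ u v : Fin s → ℕ, x = (pp (b l) u : ℚ) / pp (b l) v ∧ pp (b l) v ≤ Y ∧
        (pp (b l) u + 1) ^ ((δ + 2) ^ C₀) ≤ pp (b l) v) →
      (((Fintype.piFinset Λ).filter fun x => ¬ GoodQ δ w a m f x).card : ℝ) ≤
      ((δ : ℝ) + 2) ^ C₀ * Real.log (Real.log Y) * ∑ j, ∏ i ∈ Finset.univ.erase j, ((Λ i).card : ℝ) := by
  have ha : ∀ j, StrictMono (a j) := fun j => (inGap_of_er (h0 j)).1
  have hg0 : ∀ j, InGap (a j) (m j) 0 := fun j => (inGap_of_er (h0 j)).2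
  obtain ⟨C₁, hC₁⟩ := tupQ hn ha hg0 hf (q + (N * (n * n) + 1)) s
  obtain ⟨d, hd⟩ : PB fun δ => (δ * δ + δ + 1 + 2) ^ C₁ :=
    ((((PB.id.mul PB.id).add PB.id).add (PB.const 1)).add (PB.const 2)).pow C₁
  refine ⟨d, fun δ b hb w Y hY Λ hΛ => ?_⟩
  have hLL := loglog16 hY
  have hcard : Fintype.card (Fin q ⊕ Option (Fin N × Fin n × Fin n)) = q + (N * (n * n) + 1) := by
    rw [Fintype.card_sum, Fintype.card_option, Fintype.card_prod, Fintype.card_prod, Fintype.card_fin, Fintype.card_fin,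
      Fintype.card_fin]
  have h1 := hC₁ (δ * δ + δ + 1) b hb _ hcard
    (Sum.elim w (pt (fun j => CM (a j) (m j) 0) (2 * Real.pi * Complex.I))) Y hY Λ (fun l x hx => by
      obtain ⟨u, v, e1, e2, e3⟩ := hΛ l x hx
      exact ⟨u, v, e1, e2, (Nat.pow_le_pow_right (Nat.succ_pos _) (hd δ)).trans e3⟩)
  have h2 : ((Fintype.piFinset Λ).filter fun x => ¬ GoodQ δ w a m f x) ⊆
      (Fintype.piFinset Λ).filter fun x =>
        ¬ ((∀ l, InGap (a l) (m l) ((x l : ℚ) : ℝ)) ∧ GenQ (δ * δ + δ + 1)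
          (Sum.elim w (pt (fun j => CM (a j) (m j) 0) (2 * Real.pi * Complex.I))) a m f x) := by
    intro t ht
    obtain ⟨ht1, ht2⟩ := Finset.mem_filter.1 ht
    exact Finset.mem_filter.2 ⟨ht1, fun h => ht2 (goodQ_of hn ha hf δ w t h.1 h.2)⟩
  rw [← box_eq]
  refine (Nat.cast_le.2 (Finset.card_le_card h2)).trans (h1.trans ?_)
  refine mul_le_mul_of_nonneg_right (mul_le_mul_of_nonneg_right ?_ (by linarith)) (box_nonneg Λ)
  have h5 := hd δ
  exact_mod_cast h5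

end Pool.Agent.D0H75.HS
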