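import Pool.Agent.D0H75.HS.Mon

/-!
# Relations between the periods at the points `g l / s`: invariance under the symplectic groups, II
-/

set_option autoImplicit false
set_option maxHeartbeats 400000

open Complex Set Filter Topology Matrix

namespace Pool.Agent.D0H75.HS

open Pool.Agent.Y118.HP
open Pool.Agent.Y118.HG hiding zz zz_im zz_im_neg zz_im_pos zz_real zz_mem Comp diffOn_evs IdM mem_IdM_of mem_of_IdM MonS MonL mem_MonL pf_MonL crossing Sep one_crossing Tk_MonL sp_MonL mem_MonS func_inv_sh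

variable {n N : ℕ} {a : Fin n → ℝ} {g : Fin N → ℝ}

theorem dil_formula {c r s : ℝ} (hc : c ≠ 0) (hs : s ≠ 0) :
    r / s - c = (c * s) * (r / c - s) / s ^ 2 := by
  field_simp

theorem near_sign' {c r : ℝ} (hc : c ≠ 0) (hr : 0 < r) : ∀ᶠ s in 𝓝 (r / c), 0 < c * s := by
  have h1 : ContinuousAt (fun s : ℝ => c * s) (r / c) := by fun_prop
  have h2 : c * (r / c) = r := by field_simp
  have h3 : (0 : ℝ) < c * (r / c) := by rw [h2]; exact hr
  exact h1.eventually (isOpen_Ioi.mem_nhds h3)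

theorem tendsto_dil {c r : ℝ} (hc : c ≠ 0) (hr : 0 < r) : Tendsto (fun s : ℝ => r / s) (𝓝 (r / c)) (𝓝 c) := by
  have h0 : r / c ≠ 0 := div_ne_zero hr.ne' hc
  have h1 : ContinuousAt (fun s : ℝ => r / s) (r / c) := continuousAt_const.div continuousAt_id h0
  have h2 : r / (r / c) = c := by field_simp
  have h3 := h1.tendsto
  rwa [h2] at h3

theorem tendsto_left' {c r : ℝ} (hc : c ≠ 0) (hr : 0 < r) :
    Tendsto (fun s : ℝ => r / s) (𝓝[<] (r / c)) (𝓝[>] c) := by
  refine tendsto_nhdsWithin_iff.2 ⟨(tendsto_dil hc hr).mono_left nhdsWithin_le_nhds, ?_⟩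
  filter_upwards [self_mem_nhdsWithin, mem_nhdsWithin_of_mem_nhds (near_sign' (r := r) hc hr)] with s hs hs'
  have h0 : s ≠ 0 := right_ne_zero_of_mul (ne_of_gt hs')
  have h1 := dil_formula (r := r) hc h0
  have h2 : 0 < r / c - s := sub_pos.2 hs
  have h3 : 0 < (c * s) * (r / c - s) / s ^ 2 := by
    have : 0 < s ^ 2 := by positivity
    exact div_pos (mul_pos hs' h2) this
  show c < r / s
  linarith

theorem tendsto_right' {c r : ℝ} (hc : c ≠ 0) (hr : 0 < r) :
    Tendsto (fun s : ℝ => r / s) (𝓝[>] (r / c)) (𝓝[<] c) := by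
  refine tendsto_nhdsWithin_iff.2 ⟨(tendsto_dil hc hr).mono_left nhdsWithin_le_nhds, ?_⟩
  filter_upwards [self_mem_nhdsWithin, mem_nhdsWithin_of_mem_nhds (near_sign' (r := r) hc hr)] with s hs hs'
  have h0 : s ≠ 0 := right_ne_zero_of_mul (ne_of_gt hs')
  have h1 := dil_formula (r := r) hc h0
  have h2 : 0 < s - r / c := sub_pos.2 hs
  have h3 : 0 < (c * s) * (s - r / c) / s ^ 2 := by
    have : 0 < s ^ 2 := by positivity
    exact div_pos (mul_pos hs' h2) this
  have h5 : (c * s) * (r / c - s) / s ^ 2 = -((c * s) * (s - r / c) / s ^ 2) := by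
    ring
  show r / s < c
  linarith

/-- the hypothesis on the multiples -/
def Sep (a : Fin n → ℝ) (g : Fin N → ℝ) : Prop :=
  ∀ l l' : Fin N, l ≠ l' → ∀ i i' : Fin n, g l / a i ≠ g l' / a i'

theorem one_crossing (hg : ∀ l, 0 < g l) (ha : StrictMono a) (ha0 : ∀ i, a i ≠ 0) (hsep : Sep a g) (l0 : Fin N)
    (i : Fin n) : Ci n (i : ℕ) * Tk i (2 * Complex.I) * Cm n (i : ℕ) ∈ MonL a g l0 := by
  classical
  set σ := g l0 / a i with hσ
  have hσ0 : σ ≠ 0 := div_ne_zero (hg l0).ne' (ha0 i)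
  -- positions of the other points
  have hex : ∀ l, l ≠ l0 → ∃ m : Fin (n + 1), InGap a m (g l / σ) := by
    intro l hl
    refine exists_gap ha fun i' h => ?_
    refine hsep l0 l (Ne.symm hl) i i' ?_
    rw [← hσ, ← h]
    have := (hg l).ne'
    field_simp
  choose! M0 hM0 using hex
  have hother : ∀ l, l ≠ l0 → ∀ᶠ s in 𝓝 σ, s ≠ 0 ∧ InGap a (M0 l) (g l / s) := by
    intro l hl
    have h2 : ContinuousAt (fun s : ℝ => g l / s) σ := continuousAt_const.div continuousAt_id hσ0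
    have h3 := h2.eventually ((isOpen_InGap a (M0 l)).mem_nhds (hM0 l hl))
    filter_upwards [h3, isOpen_ne.mem_nhds hσ0] with s hs hs'
    exact ⟨hs', hs⟩
  have hleft : ∀ᶠ s in 𝓝[<] σ, ∀ l, s ≠ 0 ∧ InGap a (Function.update M0 l0 i.succ l) (g l / s) := by
    refine eventually_all.2 fun l => ?_
    by_cases hl : l = l0
    · subst hl
      rw [Function.update_self]
      have h1 := (tendsto_left' (ha0 i) (hg l)).eventually (gap_right ha i)
      have h2 := near_sign' (ha0 i) (hg l)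
      filter_upwards [h1, mem_nhdsWithin_of_mem_nhds h2] with s hs hs'
      exact ⟨right_ne_zero_of_mul (ne_of_gt hs'), hs⟩
    · rw [Function.update_of_ne hl]
      exact mem_nhdsWithin_of_mem_nhds (hother l hl)
  have hright : ∀ᶠ s in 𝓝[>] σ, ∀ l, s ≠ 0 ∧ InGap a (Function.update M0 l0 i.castSucc l) (g l / s) := by
    refine eventually_all.2 fun l => ?_
    by_cases hl : l = l0
    · subst hl
      rw [Function.update_self]
      have h1 := (tendsto_right' (ha0 i) (hg l)).eventually (gap_left ha i)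
      have h2 := near_sign' (ha0 i) (hg l)
      filter_upwards [h1, mem_nhdsWithin_of_mem_nhds h2] with s hs hs'
      exact ⟨right_ne_zero_of_mul (ne_of_gt hs'), hs⟩
    · rw [Function.update_of_ne hl]
      exact mem_nhdsWithin_of_mem_nhds (hother l hl)
  obtain ⟨u, hu, hu'⟩ := mem_nhdsLT_iff_exists_Ioo_subset.1 hleft
  obtain ⟨v, hv, hv'⟩ := mem_nhdsGT_iff_exists_Ioo_subset.1 hright
  exact crossing hg ha l0 i M0 isOpen_Ioo (convex_Ioo u σ) (nonempty_Ioo.2 hu) isOpen_Ioo (convex_Ioo σ v)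
    (nonempty_Ioo.2 hv) (fun s hs => hu' hs) (fun s hs => hv' hs)

theorem Tk_MonL (hg : ∀ l, 0 < g l) (ha : StrictMono a) (ha0 : ∀ i, a i ≠ 0) (hsep : Sep a g) (l0 : Fin N) (k : ℕ) :
    ∀ hk : k < n, ∀ s : ℂ, Tk ⟨k, hk⟩ s ∈ MonL a g l0 := by
  induction k using Nat.strong_induction_on with
  | _ k ih =>
    intro hk s
    obtain ⟨h1, h2⟩ := Cm_mem (S := MonL a g l0) k fun j hj hjk => ih j hjk hj
    have h3 := one_crossing hg ha ha0 hsep l0 ⟨k, hk⟩
    have h4 : Tk (⟨k, hk⟩ : Fin n) (2 * Complex.I) ∈ MonL a g l0 := by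
      have h5 := mul_mem (mul_mem h1 h3) h2
      have h6 : Cm n k * (Ci n k * Tk (⟨k, hk⟩ : Fin n) (2 * Complex.I) * Cm n k) * Ci n k =
          Tk (⟨k, hk⟩ : Fin n) (2 * Complex.I) := by
        calc Cm n k * (Ci n k * Tk (⟨k, hk⟩ : Fin n) (2 * Complex.I) * Cm n k) * Ci n k =
            (Cm n k * Ci n k) * Tk (⟨k, hk⟩ : Fin n) (2 * Complex.I) * (Cm n k * Ci n k) := by simp only [mul_assoc]
          _ = _ := by rw [(Cm_Ci k).1, one_mul, mul_one]
      rwa [h6] at h5
    exact Tk_all (pf_MonL l0) (by simp) h4 s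

theorem sp_MonL (hg : ∀ l, 0 < g l) (hn : Even n) (ha : StrictMono a) (ha0 : ∀ i, a i ≠ 0) (hsep : Sep a g) (l0 : Fin N)
    {h : Matrix (Fin n) (Fin n) ℂ} (hh : h ∈ SpS ℂ n) : h ∈ MonL a g l0 :=
  sp_mem_of hn (pf_MonL l0) (fun k s => Tk_MonL hg ha ha0 hsep l0 k k.2 s) hh

/-- tuples of matrices, all in the monoids `MonL` -/
theorem mem_MonS {H : Fin N → Matrix (Fin n) (Fin n) ℂ} (hH : ∀ l, H l ∈ MonL a g l) : H ∈ MonS a g := by
  classical
  have key : ∀ A : Finset (Fin N), (fun l => if l ∈ A then H l else 1) ∈ MonS a g := by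
    intro A
    induction A using Finset.induction_on with
    | empty =>
      have : (fun l => if l ∈ (∅ : Finset (Fin N)) then H l else 1) = (1 : Fin N → Matrix (Fin n) (Fin n) ℂ) := by
        funext l; simp
      rw [this]
      exact one_mem _
    | insert l0 A hl0 ih =>
      have : (fun l => if l ∈ insert l0 A then H l else 1) = ms l0 (H l0) * fun l => if l ∈ A then H l else 1 := by
        funext l
        rw [ms_mul_apply]
        by_cases hl : l = l0
        · subst hl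
          rw [if_pos (Finset.mem_insert_self _ _), if_pos rfl, if_neg hl0, mul_one]
        · rw [if_neg hl]
          simp [Finset.mem_insert, hl]
      rw [this]
      exact mul_mem (hH l0) ih
  have := key Finset.univ
  simpa using this

/-- a relation between the periods at the points `g l / s` is invariant under the symplectic groups -/
theorem func_inv (hg : ∀ l, 0 < g l) (hn : Even n) (ha : StrictMono a) (ha0 : ∀ i, a i ≠ 0) (hsep : Sep a g) (m0 : Fin (n + 1))
    (P : MvPolynomial (Option (Fin N × Fin n × Fin n)) ℂ) {s0 : ℝ} (hc : Comp a g (fun _ => m0) (Ioi s0))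
    (hP : ∀ s : ℝ, s0 < s → evs P s (fun l => PM a m0 (zz g l s)) = 0)
    (H : Fin N → Matrix (Fin n) (Fin n) ℂ) (hH : ∀ l, H l ∈ SpS ℂ n) :
    ∀ s : ℝ, s0 < s → evs P s (fun l => H l * PM a m0 (zz g l s)) = 0 := by
  have hne : (Ioi s0).Nonempty := ⟨s0 + 1, by simp⟩
  have h1 : P ∈ IdM a g (fun _ => m0) := by
    intro s hs
    refine zero_of_real (f := fun s => evs P s (fun l => PM a m0 (zz g l s))) isOpen_Ioi (convex_Ioi s0) hne ?_
      (fun s hs => hP s hs) s (Or.inl hs.ne')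
    have := diffOn_evs hg ha hc P (fun _ => 1)
    simpa only [one_mul] using this
  have h2 := mem_IdM_of hg ha h1
  set D : Fin N → Matrix (Fin n) (Fin n) ℂ := fun l => Ci n (m0 : ℕ) * H l * Cm n (m0 : ℕ) with hD
  have hDm : D ∈ MonS a g := by
    refine mem_MonS fun l => ?_
    obtain ⟨h3, h4⟩ := Cm_mem (S := MonL a g l) (m0 : ℕ) fun j hj _ s => Tk_MonL hg ha ha0 hsep l j hj s
    exact mul_mem (mul_mem h4 (sp_MonL hg hn ha ha0 hsep l (hH l))) h3
  have h3 := hDm _ h2
  have h4 : ∀ s : ℂ, 0 < s.im → evs P s (fun l => H l * PM a m0 (zz g l s)) = 0 := by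
    intro s hs
    have h5 := h3 s hs
    rw [evs_sbt, evs_sbt] at h5
    have h6 : (fun l : Fin N => Cm n (((fun _ => m0) : Fin N → Fin (n + 1)) l : ℕ)) * (D * fun l => PM a 0 (zz g l s)) =
        fun l => H l * PM a m0 (zz g l s) := by
      funext l
      rw [Pi.mul_apply, Pi.mul_apply, hD, PM_Cm ha m0 (zz_im_neg hg hs l)]
      simp only
      calc Cm n (m0 : ℕ) * (Ci n (m0 : ℕ) * H l * Cm n (m0 : ℕ) * PM a 0 (zz g l s)) =
          (Cm n (m0 : ℕ) * Ci n (m0 : ℕ)) * (H l * (Cm n (m0 : ℕ) * PM a 0 (zz g l s))) := by simp only [mul_assoc]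
        _ = _ := by rw [(Cm_Ci _).1, one_mul]
    rw [h6] at h5
    exact h5
  intro s hs
  exact zero_of_upper isOpen_Ioi (convex_Ioi s0) hne (diffOn_evs hg ha hc P H) h4 s (Or.inr (by simpa using hs))

end Pool.Agent.D0H75.HS
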