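import Pool.Agent.Y118.HG.Li
import Pool.Agent.D0H75.HS.Mon2
import Pool.Agent.D0H75.LS.LI

/-!
# Linear independence of the products over separated multiples of the variable
-/

set_option autoImplicit false
set_option maxHeartbeats 400000

open Matrix Polynomial Filter Topology

namespace Pool.Agent.D0H75.HS

open Pool.Agent.Y118.HP Pool.Agent.Y113 Pool.Agent.Y37.GF
open Pool.Agent.D0H75.LS (rs coeff_rs E_rs SR_rs)
open Pool.Agent.Y118.HG hiding zz zz_im zz_im_neg zz_im_pos zz_real zz_mem Comp diffOn_evs IdM mem_IdM_of mem_of_IdM MonS MonL mem_MonL pf_MonL crossing Sep one_crossing Tk_MonL sp_MonL mem_MonS func_inv_sh exists_P li_shift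

variable {n N : ℕ}

/-- the rescaled matrix -/
noncomputable def Zr (Z : Matrix (Fin n) (Fin n) (PowerSeries ℚ)) (g : ℕ) : Matrix (Fin n) (Fin n) (PowerSeries ℚ) :=
  Z.map (rs g)

theorem Zr_apply (Z : Matrix (Fin n) (Fin n) (PowerSeries ℚ)) (g : ℕ) (i j : Fin n) : Zr Z g i j = rs g (Z i j) := rfl

theorem Zr_SRm (g : ℕ) {r : ℝ} {Z : Matrix (Fin n) (Fin n) (PowerSeries ℚ)} (hZ : SRm ((g : ℝ) * r) Z) :
    SRm r (Zr Z g) := fun i j => by
  rw [Zr_apply]
  exact SR_rs (hZ i j)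

theorem Zr_Ez (g : ℕ) (Z : Matrix (Fin n) (Fin n) (PowerSeries ℚ)) (z : ℝ) : Ez (Zr Z g) z = Ez Z (g * z) := by
  ext i j
  rw [Ez_apply, Ez_apply, Zr_apply]
  exact E_rs g _ z

/-- the polynomial relation, with cleared denominators -/
theorem exists_P {κ : Type} [Fintype κ] (b : κ → Fin n × Fin n → ℕ) (MI : Matrix (Fin n) (Fin n) ℂ)
    (V : Matrix (Fin n) (Fin n) ℚ[X]) (g : Fin N → ℕ) (Q : (Fin N → κ) → ℚ[X]) :
    ∃ (P : MvPolynomial (Option (Fin N × Fin n × Fin n)) ℂ) (c : ℂ → ℂ), ∀ s : ℂ, s ≠ 0 →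
      c s ≠ 0 ∧ ∀ X : Fin N → Matrix (Fin n) (Fin n) ℂ, evs P s X = c s * ∑ e : Fin N → κ, aeval (1 / s) (Q e) *
        ∏ l, mnm (MI * X l * V.map (aeval (((g l : ℕ) : ℂ) / s))) (b (e l)) := by
  classical
  set A : ℕ := ∑ e, (Q e).natDegree with hA
  set B : ℕ := ∑ i, ∑ j, (V i j).natDegree with hB
  set Dm : ℕ := ∑ k, dg (b k) with hDm
  have hAle : ∀ e, (Q e).natDegree ≤ A := fun e => Finset.single_le_sum (f := fun e => (Q e).natDegree)
    (fun _ _ => Nat.zero_le _) (Finset.mem_univ e)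
  have hBle : ∀ i j, (V i j).natDegree ≤ B := fun i j =>
    (Finset.single_le_sum (f := fun j => (V i j).natDegree) (fun _ _ => Nat.zero_le _) (Finset.mem_univ j)).trans
      (Finset.single_le_sum (f := fun i => ∑ j, (V i j).natDegree) (fun _ _ => Nat.zero_le _) (Finset.mem_univ i))
  have hDle : ∀ k, dg (b k) ≤ Dm := fun k => Finset.single_le_sum (f := fun k => dg (b k))
    (fun _ _ => Nat.zero_le _) (Finset.mem_univ k)
  set e0 : ℂ[X] →ₐ[ℂ] MvPolynomial (Option (Fin N × Fin n × Fin n)) ℂ := Polynomial.aeval (MvPolynomial.X none) with he0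
  have hev0 : ∀ (z : ℂ) (X : Fin N → Matrix (Fin n) (Fin n) ℂ) (q : ℂ[X]), evs (e0 q) z X = q.eval z := by
    intro z X q
    unfold evs
    rw [← MvPolynomial.coe_aeval_eq_eval, RingHom.coe_coe, he0, ← Polynomial.aeval_algHom_apply, MvPolynomial.aeval_X]
    simp [Polynomial.coe_aeval_eq_eval, pt]
  let qa : (Fin N → κ) → ℂ[X] := fun e => (reflect A (Q e)).map (algebraMap ℚ ℂ)
  let va : Fin N → Fin n → Fin n → ℂ[X] := fun l i j =>
    (reflect B ((V i j).comp (C ((g l : ℕ) : ℚ) * X))).map (algebraMap ℚ ℂ)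
  let ga : Fin N → κ → ℂ[X] := fun l k => X ^ (B * (Dm - dg (b k)))
  refine ⟨∑ e : Fin N → κ, e0 (qa e) * ∏ l, (e0 (ga l (e l)) * ∏ x : Fin n × Fin n,
      (∑ k, (∑ i, MvPolynomial.C (MI x.1 i) * MvPolynomial.X (some (l, i, k))) * e0 (va l k x.2)) ^ b (e l) x),
    fun s => s ^ A * ∏ _l : Fin N, s ^ (B * Dm), ?_⟩
  intro s hs
  refine ⟨mul_ne_zero (pow_ne_zero _ hs) (Finset.prod_ne_zero_iff.2 fun l _ => pow_ne_zero _ hs), ?_⟩
  intro X
  have h1 : evs (∑ e : Fin N → κ, e0 (qa e) * ∏ l, (e0 (ga l (e l)) * ∏ x : Fin n × Fin n,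
      (∑ k, (∑ i, MvPolynomial.C (MI x.1 i) * MvPolynomial.X (some (l, i, k))) * e0 (va l k x.2)) ^ b (e l) x)) s X =
      ∑ e : Fin N → κ, evs (e0 (qa e)) s X * ∏ l, (evs (e0 (ga l (e l))) s X * ∏ x : Fin n × Fin n,
      (∑ k, (∑ i, MI x.1 i * X l i k) * evs (e0 (va l k x.2)) s X) ^ b (e l) x) := by
    unfold evs
    simp only [map_sum, map_mul, map_prod, map_pow, MvPolynomial.eval_X, MvPolynomial.eval_C, pt, Option.elim]
  rw [h1, Finset.mul_sum]
  refine Finset.sum_congr rfl fun e _ => ?_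
  have hq : evs (e0 (qa e)) s X = s ^ A * aeval (1 / s) (Q e) := by
    rw [hev0]
    show ((reflect A (Q e)).map (algebraMap ℚ ℂ)).eval s = _
    rw [eval_map_algebraMap, reflect_aeval (hAle e) hs]
  have hv : ∀ l i j, evs (e0 (va l i j)) s X = s ^ B * aeval (((g l : ℕ) : ℂ) / s) (V i j) := by
    intro l i j
    rw [hev0]
    show ((reflect B ((V i j).comp (C ((g l : ℕ) : ℚ) * Polynomial.X))).map (algebraMap ℚ ℂ)).eval s = _
    have hd : ((V i j).comp (C ((g l : ℕ) : ℚ) * Polynomial.X)).natDegree ≤ B := by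
      refine natDegree_comp_le.trans ?_
      have h1 : (C ((g l : ℕ) : ℚ) * Polynomial.X).natDegree ≤ 1 :=
        (natDegree_C_mul_le _ _).trans natDegree_X_le
      calc (V i j).natDegree * (C ((g l : ℕ) : ℚ) * Polynomial.X).natDegree ≤ (V i j).natDegree * 1 :=
            Nat.mul_le_mul_left _ h1
        _ ≤ B := by rw [mul_one]; exact hBle i j
    rw [eval_map_algebraMap, reflect_aeval hd hs, Polynomial.aeval_comp]
    congr 2
    rw [map_mul, aeval_C, aeval_X]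
    simp [div_eq_mul_inv]
  have hg : ∀ l k, evs (e0 (ga l k)) s X = s ^ (B * (Dm - dg (b k))) := by
    intro l k
    rw [hev0]
    show (Polynomial.X ^ (B * (Dm - dg (b k)))).eval s = _
    rw [eval_pow, eval_X]
  simp only [hq, hg]
  have hl : ∀ l, ∏ x : Fin n × Fin n, (∑ k, (∑ i, MI x.1 i * X l i k) * evs (e0 (va l k x.2)) s X) ^ b (e l) x =
      s ^ (B * dg (b (e l))) * mnm (MI * X l * V.map (aeval (((g l : ℕ) : ℂ) / s))) (b (e l)) := by
    intro l
    have h2 : ∀ x : Fin n × Fin n, (∑ k, (∑ i, MI x.1 i * X l i k) * evs (e0 (va l k x.2)) s X) =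
        s ^ B * (MI * X l * V.map (aeval (((g l : ℕ) : ℂ) / s))) x.1 x.2 := by
      intro x
      rw [Matrix.mul_apply, Finset.mul_sum]
      refine Finset.sum_congr rfl fun k _ => ?_
      rw [hv, Matrix.mul_apply, Matrix.map_apply]
      ring
    simp only [h2, mul_pow]
    rw [Finset.prod_mul_distrib]
    unfold mnm dg
    have h3 : ∏ x : Fin n × Fin n, (s ^ B) ^ b (e l) x = s ^ (B * ∑ x : Fin n × Fin n, b (e l) x) := by
      have h4 := Finset.prod_pow_eq_pow_sum Finset.univ (fun x : Fin n × Fin n => B * b (e l) x) s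
      rw [Finset.mul_sum, ← h4]
      exact Finset.prod_congr rfl fun x _ => (pow_mul s B (b (e l) x)).symm
    rw [h3]
  simp only [hl]
  have h3 : ∀ l, s ^ (B * (Dm - dg (b (e l)))) * (s ^ (B * dg (b (e l))) *
      mnm (MI * X l * V.map (aeval (((g l : ℕ) : ℂ) / s))) (b (e l))) =
      s ^ (B * Dm) * mnm (MI * X l * V.map (aeval (((g l : ℕ) : ℂ) / s))) (b (e l)) := by
    intro l
    rw [← mul_assoc, ← pow_add, ← Nat.mul_add, Nat.sub_add_cancel (hDle _)]
  simp only [h3]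
  rw [Finset.prod_mul_distrib]
  ring

/-- the products over separated multiples are linearly independent -/
theorem li_dil (hn : Even n) {a : Fin n → ℝ} (ha : StrictMono a) (ha0 : ∀ i, a i ≠ 0) {m : Fin (n + 1)} {f : ℚ[X]}
    (h0 : InGap a m 0) (hf : f.map (algebraMap ℚ ℝ) = ∏ i, (X - C (a i))) (Δ : ZDat n a m f) {κ : Type} [Fintype κ]
    (b : κ → Fin n × Fin n → ℕ) (hb : ∀ x : κ → ℂ, (∀ g ∈ SpS ℂ n, ∑ k, x k * mnm g (b k) = 0) → x = 0)
    (g : Fin N → ℕ) (hgp : ∀ l, 0 < g l) (hsep : Sep a (fun l => (g l : ℝ))) :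
    LinearIndependent ℚ[X] (fun e : Fin N → κ => ∏ l, mnm (Zr Δ.Z (g l)) (b (e l))) := by
  classical
  rw [Fintype.linearIndependent_iff]
  intro Q hQ
  obtain ⟨ρ', hρ', hZ'⟩ := SDc_SR' (fun p : Fin n × Fin n => Δ.Z p.1 p.2) fun p => Δ.sdZ p.1 p.2
  set ρ := min ρ' 1 with hρ
  have hρ0 : 0 < ρ := lt_min hρ' one_pos
  have hρ1 : ρ ≤ 1 := min_le_right _ _
  have hZ : SRm ρ Δ.Z := fun i j => (hZ' (i, j)).mono hρ0.le (min_le_left _ _)
  -- a common radius
  set r : ℝ := ρ / ((∑ l, (g l : ℝ)) + 8) with hr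
  have hS : 0 ≤ ∑ l, (g l : ℝ) := Finset.sum_nonneg fun l _ => by positivity
  have hr0 : 0 < r := by positivity
  have hrl : ∀ l, (g l : ℝ) * r ≤ ρ := by
    intro l
    have h1 : (g l : ℝ) ≤ ∑ l, (g l : ℝ) :=
      Finset.single_le_sum (f := fun l => (g l : ℝ)) (fun l _ => by positivity) (Finset.mem_univ l)
    have h2 : (0 : ℝ) < (∑ l, (g l : ℝ)) + 8 := by positivity
    rw [hr, mul_div_assoc', div_le_iff₀ h2]
    nlinarith
  have hSRm : ∀ l, SRm r (Zr Δ.Z (g l)) := fun l => Zr_SRm (g l) (hZ.mono (by positivity) (hrl l))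
  have hSR : ∀ e : Fin N → κ, ∀ l ∈ (Finset.univ : Finset (Fin N)), SR r (mnm (Zr Δ.Z (g l)) (b (e l))) :=
    fun e l _ => SR_mnm hr0.le (hSRm l) _
  have hval : ∀ z : ℝ, |z| ≤ r → ∑ e, aeval z (Q e) * ∏ l, mnm (Ez Δ.Z (g l * z)) (b (e l)) = 0 := by
    intro z hz
    have h1 : E (∑ e, Q e • ∏ l, mnm (Zr Δ.Z (g l)) (b (e l))) z = 0 := by rw [hQ]; simp [E]
    have h2 : ∀ e, Q e • (∏ l, mnm (Zr Δ.Z (g l)) (b (e l))) =
        (Q e : PowerSeries ℚ) * ∏ l, mnm (Zr Δ.Z (g l)) (b (e l)) := fun e => by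
      rw [Algebra.smul_def]; rfl
    simp only [h2] at h1
    rw [E_sum _ hr0.le (fun e _ => (SR.poly _ _).mul hr0.le (SR.prod _ hr0.le (hSR e))) hz] at h1
    rw [← h1]
    refine Finset.sum_congr rfl fun e _ => ?_
    rw [E_mul (SR.poly _ _) (SR.prod _ hr0.le (hSR e)) hz, E_poly, E_prod _ hr0.le (hSR e) hz]
    congr 1
    refine Finset.prod_congr rfl fun l _ => ?_
    rw [E_mnm hr0.le (hSRm l) _ hz, Zr_Ez]
  -- neighbourhoods at infinity
  have hgap : ∀ᶠ z in 𝓝 (0 : ℝ), InGap a m z := (isOpen_InGap a m).mem_nhds h0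
  have htend : ∀ l, Tendsto (fun s : ℝ => (g l : ℝ) / s) atTop (𝓝 0) := fun l =>
    tendsto_const_nhds.div_atTop tendsto_id
  have hev : ∀ᶠ s in atTop (α := ℝ), (1 ≤ s ∧ 1 / r ≤ s) ∧ ∀ l, (0 : ℝ) < s ∧ InGap a m (g l / s) ∧
      RM a m (g l / s) = RM a m 0 * Δ.V.map (aeval (0 : ℝ)) * Ez Δ.Z (g l / s) *
        Δ.U.map (aeval ((g l : ℝ) / s)) := by
    refine ((eventually_ge_atTop 1).and (eventually_ge_atTop _)).and (eventually_all.2 fun l => ?_)
    exact (eventually_gt_atTop _).and (((htend l).eventually hgap).and ((htend l).eventually Δ.val))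
  obtain ⟨s0, hs0⟩ := eventually_atTop.1 hev
  -- the matrix `M0`
  set M0 : Matrix (Fin n) (Fin n) ℝ := RM a m 0 * Δ.V.map (aeval (0 : ℝ)) with hM0
  have hM0J : M0 * jm ℝ n * M0.transpose = Real.pi • jm ℝ n := by
    have h1 := RM_leg hn ha hf h0
    rw [Qp_aeval Δ.VJ] at h1
    rw [hM0, Matrix.transpose_mul, ← h1]
    simp only [Matrix.mul_assoc]
  have hdet : IsUnit M0.det := by
    rw [isUnit_iff_ne_zero]
    intro h2
    have := congrArg Matrix.det hM0J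
    rw [Matrix.det_mul, Matrix.det_mul, h2, zero_mul, zero_mul, Matrix.det_smul] at this
    exact mul_ne_zero (pow_ne_zero _ Real.pi_ne_zero) (jm_det hn) this.symm
  set M0C : Matrix (Fin n) (Fin n) ℂ := M0.map (algebraMap ℝ ℂ) with hM0C
  set MI : Matrix (Fin n) (Fin n) ℂ := (M0⁻¹).map (algebraMap ℝ ℂ) with hMI
  have hMI1 : MI * M0C = 1 := by
    rw [hMI, hM0C, ← Matrix.map_mul, nonsing_inv_mul _ hdet]
    exact Matrix.map_one _ (map_zero _) (map_one _)
  have hMI2 : M0C * MI = 1 := by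
    rw [hMI, hM0C, ← Matrix.map_mul, mul_nonsing_inv _ hdet]
    exact Matrix.map_one _ (map_zero _) (map_one _)
  have hM0CJ : M0C * jm ℂ n * M0C.transpose = (Real.pi : ℂ) • jm ℂ n := by
    have h1 := congrArg (fun M : Matrix (Fin n) (Fin n) ℝ => M.map (algebraMap ℝ ℂ)) hM0J
    simp only [Matrix.map_mul, Matrix.transpose_map] at h1
    rw [jm_map] at h1
    rw [hM0C, h1]
    ext i j
    simp only [Matrix.map_apply, Matrix.smul_apply, smul_eq_mul, map_mul]
    rw [← jm_map (algebraMap ℝ ℂ), Matrix.map_apply]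
    rfl
  obtain ⟨P, c, hP⟩ := exists_P b MI Δ.V g Q
  have hgc : ∀ l, ((g l : ℕ) : ℂ) = ((g l : ℝ) : ℂ) := fun l => by push_cast; rfl
  -- the values of the periods
  have hPM : ∀ s : ℝ, s0 < s → ∀ l, MI * PM a m (zz (fun l => (g l : ℝ)) l s) *
      Δ.V.map (aeval (((g l : ℕ) : ℂ) / (s : ℂ))) = (Ez Δ.Z (g l / s)).map (algebraMap ℝ ℂ) := by
    intro s hs l
    obtain ⟨hg1, hg2, hg3⟩ := (hs0 s hs.le).2 l
    have hz : zz (fun l => (g l : ℝ)) l (s : ℂ) = ((g l / s : ℝ) : ℂ) := by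
      unfold zz; push_cast; rfl
    have hz' : (((g l : ℕ) : ℂ) / (s : ℂ)) = ((g l / s : ℝ) : ℂ) := by push_cast; rfl
    rw [hz, hz', PM_real ha hg2, map_aeval_real, hg3, hMI, ← Matrix.map_mul, ← Matrix.map_mul]
    congr 1
    have h3 : Δ.U.map (aeval ((g l : ℝ) / s)) * Δ.V.map (aeval ((g l : ℝ) / s)) = 1 := by
      rw [← map_aeval_mul, Δ.UV, map_aeval_one]
    calc M0⁻¹ * (M0 * Ez Δ.Z (g l / s) * Δ.U.map (aeval ((g l : ℝ) / s))) *
          Δ.V.map (aeval ((g l : ℝ) / s)) = (M0⁻¹ * M0) * Ez Δ.Z (g l / s) *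
          (Δ.U.map (aeval ((g l : ℝ) / s)) * Δ.V.map (aeval ((g l : ℝ) / s))) := by
          simp only [Matrix.mul_assoc]
      _ = Ez Δ.Z (g l / s) := by rw [h3, nonsing_inv_mul _ hdet, one_mul, mul_one]
  -- small arguments
  have hsmall : ∀ s : ℝ, s0 < s → 0 < s ∧ |1 / s| ≤ r ∧ ∀ l, (g l : ℝ) * (1 / s) = g l / s := by
    intro s hs
    obtain ⟨⟨h1, h2⟩, h3⟩ := hs0 s hs.le
    have hs1 : 0 < s := by linarith
    refine ⟨hs1, ?_, fun l => ?_⟩
    · rw [abs_of_pos (by positivity), div_le_iff₀ hs1]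
      rw [div_le_iff₀ hr0] at h2
      linarith
    · rw [mul_one_div]
  have hSpZ : ∀ s : ℝ, s0 < s → ∀ l, (Ez Δ.Z (g l / s)).map (algebraMap ℝ ℂ) ∈ SpS ℂ n := by
    intro s hs l
    refine SpS_map _ ?_
    obtain ⟨hg1, hg2, hg3⟩ := (hs0 s hs.le).2 l
    refine SpS_of_eq hn Real.pi_ne_zero hM0J ?_
    have h1 := RM_leg hn ha hf hg2
    rw [Qp_aeval Δ.VJ, hg3] at h1
    have hUVz : Δ.U.map (aeval ((g l : ℝ) / s)) * Δ.V.map (aeval ((g l : ℝ) / s)) = 1 := by
      rw [← map_aeval_mul, Δ.UV, map_aeval_one]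
    have h2 : M0 * Ez Δ.Z (g l / s) * Δ.U.map (aeval ((g l : ℝ) / s)) *
        Δ.V.map (aeval ((g l : ℝ) / s)) = M0 * Ez Δ.Z (g l / s) := by rw [Matrix.mul_assoc, hUVz, mul_one]
    have h3 : (M0 * Ez Δ.Z (g l / s) * Δ.U.map (aeval ((g l : ℝ) / s)) *
        Δ.V.map (aeval ((g l : ℝ) / s))) * jm ℝ n *
        (M0 * Ez Δ.Z (g l / s) * Δ.U.map (aeval ((g l : ℝ) / s)) *
        Δ.V.map (aeval ((g l : ℝ) / s))).transpose = Real.pi • jm ℝ n := by
      rw [← h1]
      simp only [Matrix.transpose_mul, Matrix.mul_assoc]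
    rw [h2] at h3
    exact h3
  -- the relation
  have hrel : ∀ s : ℝ, s0 < s → evs P s (fun l => PM a m (zz (fun l => (g l : ℝ)) l s)) = 0 := by
    intro s hs
    obtain ⟨hs1, hs2, hs3⟩ := hsmall s hs
    have hsC : (s : ℂ) ≠ 0 := by exact_mod_cast hs1.ne'
    rw [(hP s hsC).2]
    simp only [hPM s hs, mnm_map]
    have h1 := hval (1 / s) hs2
    simp only [hs3] at h1
    have h2 := congrArg (algebraMap ℝ ℂ) h1
    rw [map_sum, map_zero] at h2
    simp only [map_mul, map_prod] at h2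
    have h3 : ∀ e, (aeval (1 / (s : ℂ)) (Q e) : ℂ) = (algebraMap ℝ ℂ) (aeval (1 / s) (Q e)) := by
      intro e
      have := aeval_real_cast (Q e) (1 / s)
      simpa using this
    simp only [h3]
    rw [h2, mul_zero]
  have hcomp : Comp a (fun l => (g l : ℝ)) (fun _ => m) (Set.Ioi s0) := by
    intro s hs l
    obtain ⟨hg1, hg2, -⟩ := (hs0 s (le_of_lt hs)).2 l
    exact ⟨hg1.ne', hg2⟩
  have hinv := func_inv (fun l => (by exact_mod_cast hgp l : (0 : ℝ) < (g l : ℝ))) hn ha ha0 hsep m P hcomp hrel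
  -- conclusion
  have hzero : ∀ s : ℝ, s0 < s → ∀ e, aeval (1 / (s : ℂ)) (Q e) = 0 := by
    intro s hs
    obtain ⟨hs1, hs2, hs3⟩ := hsmall s hs
    have hsC : (s : ℂ) ≠ 0 := by exact_mod_cast hs1.ne'
    have h1 := prod_indep (𝒮 := SpS ℂ n) (fun k S => mnm S (b k)) hb N (fun e => aeval (1 / (s : ℂ)) (Q e)) ?_
    · intro e
      exact congrFun h1 e
    · intro S hS
      -- choose `H`
      set Zc : Fin N → Matrix (Fin n) (Fin n) ℂ := fun l => (Ez Δ.Z (g l / s)).map (algebraMap ℝ ℂ) with hZc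
      have hZi := fun l => SpS_inv hn (hSpZ s hs l)
      have hH : ∀ l, M0C * (S l * (Zc l)⁻¹) * MI ∈ SpS ℂ n := by
        intro l
        have h2 : S l * (Zc l)⁻¹ ∈ SpS ℂ n := SpS_mul (hS l) (hZi l).1
        show M0C * (S l * (Zc l)⁻¹) * MI * jm ℂ n * (M0C * (S l * (Zc l)⁻¹) * MI).transpose = jm ℂ n
        have hpi : (Real.pi : ℂ) ≠ 0 := by exact_mod_cast Real.pi_ne_zero
        have h4 : MI * jm ℂ n * MI.transpose = (Real.pi : ℂ)⁻¹ • jm ℂ n := by
          have h5 : M0C.transpose * MI.transpose = 1 := by rw [← Matrix.transpose_mul, hMI1, Matrix.transpose_one]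
          calc MI * jm ℂ n * MI.transpose = MI * ((Real.pi : ℂ)⁻¹ • ((Real.pi : ℂ) • jm ℂ n)) * MI.transpose := by
                rw [smul_smul, inv_mul_cancel₀ hpi, one_smul]
            _ = (Real.pi : ℂ)⁻¹ • ((MI * M0C) * jm ℂ n * (M0C.transpose * MI.transpose)) := by
                rw [← hM0CJ, Matrix.mul_smul, Matrix.smul_mul]; simp only [Matrix.mul_assoc]
            _ = _ := by rw [hMI1, h5, one_mul, mul_one]
        have h6 : (S l * (Zc l)⁻¹) * jm ℂ n * (S l * (Zc l)⁻¹).transpose = jm ℂ n := h2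
        calc M0C * (S l * (Zc l)⁻¹) * MI * jm ℂ n * (M0C * (S l * (Zc l)⁻¹) * MI).transpose
            = M0C * (S l * (Zc l)⁻¹) * (MI * jm ℂ n * MI.transpose) * (S l * (Zc l)⁻¹).transpose * M0C.transpose := by
              rw [Matrix.transpose_mul, Matrix.transpose_mul]; simp only [Matrix.mul_assoc]
          _ = (Real.pi : ℂ)⁻¹ • (M0C * ((S l * (Zc l)⁻¹) * jm ℂ n * (S l * (Zc l)⁻¹).transpose) * M0C.transpose) := by
              rw [h4]; simp only [Matrix.mul_smul, Matrix.smul_mul, Matrix.mul_assoc]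
          _ = jm ℂ n := by rw [h6, hM0CJ, smul_smul, inv_mul_cancel₀ hpi, one_smul]
      have h7 := hinv (fun l => M0C * (S l * (Zc l)⁻¹) * MI) hH s hs
      rw [(hP s hsC).2] at h7
      have h8 := (mul_eq_zero.1 h7).resolve_left (hP s hsC).1
      rw [← h8]
      refine Finset.sum_congr rfl fun e _ => ?_
      congr 1
      refine Finset.prod_congr rfl fun l _ => ?_
      congr 1
      have h9 := hPM s hs l
      calc S l = S l * ((Zc l)⁻¹ * Zc l) := by rw [(hZi l).2, mul_one]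
        _ = (MI * M0C) * (S l * (Zc l)⁻¹) * Zc l := by rw [hMI1, one_mul, Matrix.mul_assoc]
        _ = (MI * M0C) * (S l * (Zc l)⁻¹) * (MI * PM a m (zz (fun l => (g l : ℝ)) l s) *
              Δ.V.map (aeval (((g l : ℕ) : ℂ) / (s : ℂ)))) := by rw [h9]
        _ = _ := by simp only [Matrix.mul_assoc]
  intro e
  have h1 : (Q e).map (algebraMap ℚ ℂ) = 0 := by
    refine Polynomial.eq_zero_of_infinite_isRoot _ ?_
    have h2 : (Set.range fun k : ℕ => (1 / (((|s0| + 1 + k : ℝ)) : ℂ))).Infinite := by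
      refine Set.infinite_range_of_injective fun k k' hkk => ?_
      have h3 : (1 / ((|s0| + 1 + k : ℝ) : ℂ)) = (1 / ((|s0| + 1 + k' : ℝ) : ℂ)) := hkk
      rw [one_div, one_div, _root_.inv_inj] at h3
      have h4 : (|s0| + 1 + k : ℝ) = (|s0| + 1 + k' : ℝ) := by exact_mod_cast h3
      have h5 : (k : ℝ) = k' := by linarith
      exact_mod_cast h5
    refine h2.mono ?_
    rintro _ ⟨k, rfl⟩
    show ((Q e).map (algebraMap ℚ ℂ)).eval _ = 0
    rw [eval_map_algebraMap]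
    refine hzero _ ?_ e
    have := le_abs_self s0
    have hk : (0 : ℝ) ≤ k := by positivity
    linarith
  exact (Polynomial.map_eq_zero_iff (algebraMap ℚ ℂ).injective).1 h1

end Pool.Agent.D0H75.HS
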