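import Pool.Agent.R351.GD.Hy.Val
import Pool.Agent.D0H75.HS.Li
import Pool.Agent.D0H75.JS.Rs

/-!
# Hyperelliptic families: linear independence of the values at `g / t`, with exponents polynomial in the degree
-/

set_option autoImplicit false

open Matrix Polynomial Filter Topology

namespace Pool.Agent.D0H75.HS

open Pool.Agent.Y118.HP Pool.Agent.Y37.GF
open Pool.Agent.Y118.HG hiding zz zz_im zz_im_neg zz_im_pos zz_real zz_mem Comp diffOn_evs IdM mem_IdM_of mem_of_IdM MonS MonL mem_MonL pf_MonL crossing Sep one_crossing Tk_MonL sp_MonL mem_MonS func_inv_sh exists_P li_shift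
open Pool.Agent.Y113 hiding ix
open Pool.Agent.R351.GD Pool.Agent.R351.GD.Hy
open Pool.Agent.D0H75.LS (rs coeff_rs E_rs SR_rs)
open Pool.Agent.D0H75.JS (rp gsys_rs small_root aeval_rp)
open Pool.Agent.R351.GD.H (quotA)
open Pool.Agent.Y119.HZ (ix)

variable {n : ℕ}

theorem sh_zero : Pool.Agent.Y113.sh 0 = (PowerSeries.X : PowerSeries ℚ) := by
  ext m
  unfold Pool.Agent.Y113.sh
  rw [PowerSeries.coeff_mk, PowerSeries.coeff_X]
  rcases m with _ | _ | m <;> simp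

theorem subst_zero (f : PowerSeries ℚ) : f.subst (Pool.Agent.Y113.sh 0) = f := by
  rw [sh_zero, ← PowerSeries.map_algebraMap_eq_subst_X]
  ext m
  simp

theorem Zg_zero (Z : Matrix (Fin n) (Fin n) (PowerSeries ℚ)) : Zg Z 0 = Z := by
  ext1 i j
  rw [Zg_apply, subst_zero]

theorem rs_C (g : ℕ) (c : ℚ) : rs g (PowerSeries.C c) = PowerSeries.C c := by
  ext m
  rw [coeff_rs, PowerSeries.coeff_C]
  split_ifs with h
  · rw [h, pow_zero, one_mul]
  · rw [mul_zero]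

/-- the G-systems of the products in a basis -/
theorem sysG {q E : ℕ} {TT : ℕ → ℤ[X]} {Z : Matrix (Fin n) (Fin n) (PowerSeries ℚ)}
    (hGS : ∀ g : ℕ, GSys q (((g : ℝ) + 2) ^ E) (TT g)
      (fun o : Option (Fin n × Fin n) => o.elim 1 fun p => rs g (Z p.1 p.2)))
    (δ : ℕ) (B : Finset (Fin δ → Option (Fin (n * n)))) (a : ℤ) (M : (Fin δ → Option (Fin (n * n))) → B → ℤ) (e : ℕ)
    (ha0 : a ≠ 0) (ha : |a| ≤ 2 ^ e) (hM : ∀ w b, |M w b| ≤ 2 ^ e) (g : ℕ)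
    (hrel : ∀ w, (a : PowerSeries ℚ) * mnm (Zr Z g) (ew w) = ∑ b : B, (M w b : PowerSeries ℚ) * mnm (Zr Z g) (ew b.1)) :
    GSys q (((g : ℝ) + 2) ^ (2 * e + ((n * n + 1) * δ + ((q + 1 + E) * δ + E)))) (TT g)
      (fun b : B => mnm (Zr Z g) (ew b.1)) := by
  classical
  set y : ℕ → Option (Fin (n * n)) → PowerSeries ℚ := fun g o => o.elim 1 fun j => Zr Z g (ix n j).2 (ix n j).1 with hy
  have hGy : ∀ g : ℕ, GSys q (((g : ℝ) + 2) ^ E) (TT g) (y g) := by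
    intro g
    have h1 := (hGS g).reindex (Equiv.optionCongr ((ix n).trans (Equiv.prodComm _ _)))
    have h2 : (fun j => (fun o : Option (Fin n × Fin n) => o.elim (1 : PowerSeries ℚ) fun p => rs g (Z p.1 p.2))
        ((Equiv.optionCongr ((ix n).trans (Equiv.prodComm _ _))) j)) = y g := by
      funext o
      rcases o with _ | j
      · rfl
      · rfl
    rw [← h2]
    exact h1
  have hw := words_base hGy δ g
  have hyw : ∀ f : Fin δ → Option (Fin (n * n)), ∏ i, y g (f i) = mnm (Zr Z g) (ew f) := fun f => (mnm_ew _ f).symm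
  have h2e : (1 : ℝ) ≤ 2 ^ e := one_le_pow₀ (by norm_num)
  have h1 := quotA (w := fun b : B => mnm (Zr Z g) (ew b.1)) hw (fun b => b.1) a ha0 M (fun b => (hyw b.1).symm)
    (fun f => by
      rw [hyw]
      exact hrel f) (2 ^ e) (2 ^ e) (2 ^ ((n * n + 1) * δ)) (by exact_mod_cast ha) (fun f b => by exact_mod_cast hM f b)
    h2e (one_le_pow₀ (by norm_num)) (by
      rw [Fintype.card_fun, Fintype.card_option, Fintype.card_fin, Fintype.card_fin]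
      have h3 : n * n + 1 ≤ 2 ^ (n * n + 1) := (Nat.lt_two_pow_self).le
      have h4 : (n * n + 1) ^ δ ≤ 2 ^ ((n * n + 1) * δ) := by
        rw [pow_mul]
        exact Nat.pow_le_pow_left h3 _
      exact_mod_cast h4)
  refine h1.mono le_rfl ?_
  have h2 : (2 : ℝ) ≤ (g : ℝ) + 2 := by
    have : (0 : ℝ) ≤ g := Nat.cast_nonneg g
    linarith
  calc (2 : ℝ) ^ e * (2 ^ ((n * n + 1) * δ) * 2 ^ e * ((g : ℝ) + 2) ^ ((q + 1 + E) * δ + E))
      ≤ ((g : ℝ) + 2) ^ e * (((g : ℝ) + 2) ^ ((n * n + 1) * δ) * ((g : ℝ) + 2) ^ e *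
        ((g : ℝ) + 2) ^ ((q + 1 + E) * δ + E)) := by gcongr
    _ = ((g : ℝ) + 2) ^ (e + ((n * n + 1) * δ + e + ((q + 1 + E) * δ + E))) := by
      rw [← pow_add, ← pow_add, ← pow_add]
    _ ≤ _ := by
      refine pow_le_pow_right₀ (by linarith) (le_of_eq ?_)
      ring

/-- **linear independence of the values** -/
theorem li_valD (hn : Even n) {a : Fin n → ℝ} (ha : StrictMono a) (ha0 : ∀ i, a i ≠ 0) {m : Fin (n + 1)} {f : ℚ[X]}
    (h0 : InGap a m 0) (hf : f.map (algebraMap ℚ ℝ) = ∏ i, (X - C (a i))) (hf0 : f.coeff 0 ≠ 0) (Δ : ZDat n a m f)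
    (N : ℕ) :
    ∃ E : ℕ → ℕ, PB E ∧ ∀ D0 : ℕ, ∃ (κ : Type) (_ : Fintype κ) (b : κ → Fin n × Fin n → ℕ)
      (w : (Fin n × Fin n → ℕ) → κ → ℚ),
      (∀ s, dg s ≤ D0 → ∀ g ∈ SpS ℂ n, mnm g s = ∑ k, (w s k : ℂ) * mnm g (b k)) ∧
      ∀ H t : ℕ, (H + 2) ^ E D0 ≤ t → (H : ℝ) < t ∧ ∀ g : Fin N → ℕ, Sep a (fun l => (g l : ℝ)) →
      (∀ i, 1 ≤ g i ∧ g i ≤ H) →
      LinearIndependent ℚ (fun e : Fin N → κ => ∏ i, mnm (Ez Δ.Z ((g i : ℝ) / t)) (b (e i))) := by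
  classical
  obtain ⟨q, E₁, TT₀, hGS₀, hTT₀⟩ := Pool.Agent.Y46.HG.t_one n f (fun i j => Δ.A i j) (fun i j => Δ.Z i j)
    (fun i j => Δ.W i j) hf0 Δ.ode (by
      intro i j
      have h1 := congrFun (congrFun Δ.WZ i) j
      rw [Matrix.mul_apply, Matrix.one_apply] at h1
      exact h1) Δ.sdZ Δ.sdW
  have hT0 : TT₀ 0 ≠ 0 := by
    intro h0
    have h1 := hTT₀ 0 (2 ^ E₁) (by push_cast; rw [zero_add])
    rw [h0, map_zero] at h1
    exact h1 rfl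
  obtain ⟨cr, hcr⟩ := small_root hT0
  obtain ⟨E, hE⟩ : ∃ E : ℕ, E = q + 1 + E₁ + cr + 1 := ⟨_, rfl⟩
  obtain ⟨TT, hTTd⟩ : ∃ TT : ℕ → ℤ[X], TT = fun g => rp g (TT₀ 0) := ⟨_, rfl⟩
  have hGS : ∀ g : ℕ, GSys q (((g : ℝ) + 2) ^ E) (TT g)
      (fun o : Option (Fin n × Fin n) => o.elim 1 fun p => rs g (Δ.Z p.1 p.2)) := by
    intro g
    have h1 := gsys_rs (hGS₀ 0) g
    have h2 : (fun o : Option (Fin n × Fin n) => rs g (o.elim 1 fun p => (Δ.Z p.1 p.2).subst (sh 0))) =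
        fun o : Option (Fin n × Fin n) => o.elim 1 fun p => rs g (Δ.Z p.1 p.2) := by
      funext o
      rcases o with _ | p
      · exact map_one _
      · show rs g ((Δ.Z p.1 p.2).subst (Pool.Agent.Y113.sh 0)) = rs g (Δ.Z p.1 p.2)
        rw [subst_zero]
    rw [h2] at h1
    rw [hTTd]
    refine h1.mono le_rfl ?_
    have h3 : (1 : ℝ) ≤ (g : ℝ) + 2 := by
      have : (0 : ℝ) ≤ g := Nat.cast_nonneg g
      linarith
    have h4 : ((((0 : ℕ) : ℝ)) + 2) ^ E₁ ≤ ((g : ℝ) + 2) ^ E₁ := by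
      refine pow_le_pow_left₀ (by positivity) ?_ _
      have : (0 : ℝ) ≤ g := Nat.cast_nonneg g
      push_cast
      linarith
    calc ((g : ℝ) + 2) ^ (q + 1) * ((((0 : ℕ) : ℝ)) + 2) ^ E₁ ≤ ((g : ℝ) + 2) ^ (q + 1) * ((g : ℝ) + 2) ^ E₁ :=
          mul_le_mul_of_nonneg_left h4 (by positivity)
      _ = ((g : ℝ) + 2) ^ (q + 1 + E₁) := (pow_add _ _ _).symm
      _ ≤ _ := pow_le_pow_right₀ h3 (by omega)
  have hTT : ∀ g t : ℕ, 1 ≤ g → ((g : ℝ) + 2) ^ E ≤ (t : ℝ) → Polynomial.aeval (1 / (t : ℝ)) (TT g) ≠ 0 := by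
    intro g t hg ht
    have hg0 : (0 : ℝ) < g := by exact_mod_cast hg
    have h3 : (1 : ℝ) ≤ (g : ℝ) + 2 := by linarith
    have ht0 : (0 : ℝ) < t := lt_of_lt_of_le (by positivity) ht
    rw [hTTd]
    show Polynomial.aeval (1 / (t : ℝ)) (rp g (TT₀ 0)) ≠ 0
    rw [aeval_rp, mul_one_div]
    refine hcr _ (div_pos hg0 ht0) ?_
    rw [div_mul_eq_mul_div, div_lt_one ht0]
    have h5 : (cr : ℝ) < 2 ^ cr := by exact_mod_cast (Nat.lt_two_pow_self : cr < 2 ^ cr)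
    calc (g : ℝ) * cr < ((g : ℝ) + 2) * 2 ^ cr := by nlinarith [pow_pos (by norm_num : (0 : ℝ) < 2) cr]
      _ ≤ ((g : ℝ) + 2) * ((g : ℝ) + 2) ^ cr :=
          mul_le_mul_of_nonneg_left (pow_le_pow_left₀ (by norm_num) (by linarith) _) (by positivity)
      _ = ((g : ℝ) + 2) ^ (cr + 1) := by rw [pow_succ]; ring
      _ ≤ ((g : ℝ) + 2) ^ E := pow_le_pow_right₀ h3 (by omega)
      _ ≤ t := ht
  obtain ⟨ρ', hρ', hZ'⟩ := SDc_SR' (fun p : Fin n × Fin n => Δ.Z p.1 p.2) fun p => Δ.sdZ p.1 p.2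
  set ρ := min ρ' 1 with hρ
  have hρ0 : 0 < ρ := lt_min hρ' one_pos
  have hρ1 : ρ ≤ 1 := min_le_right _ _
  have hZ : SRm ρ Δ.Z := fun i j => (hZ' (i, j)).mono hρ0.le (min_le_left _ _)
  obtain ⟨Eb, hEbp, hbas⟩ := basG hn
  set E₀ : ℕ → ℕ := fun D0 => 2 * Eb D0 + ((n * n + 1) * D0 + ((q + 1 + E) * D0 + E)) with hE₀
  have hE₀p : PB E₀ := ((PB.const 2).mul hEbp).add (((PB.const (n * n + 1)).mul PB.id).add
    (((PB.const (q + 1 + E)).mul PB.id).add (PB.const E)))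
  obtain ⟨q', E', hE'p, hmul⟩ := multi_exp q E₀ hE₀p N
  obtain ⟨EG, hEGp, hG⟩ := gof_exp Pool.Agent.Y141.GF.t_shid Pool.Agent.Y141.GF.t_loc q'
  obtain ⟨e1, he1⟩ : ∃ e1 : ℕ, 1 / ρ ≤ (2 : ℝ) ^ e1 := by
    obtain ⟨e1, he1⟩ := pow_unbounded_of_one_lt (1 / ρ) (show (1 : ℝ) < 2 by norm_num)
    exact ⟨e1, he1.le⟩
  refine ⟨fun D0 => E + (E' D0 + 1) * EG (Eb D0 ^ N) + (3 + e1), ?_, fun D0 => ?_⟩
  · exact ((PB.const E).add ((hE'p.add (PB.const 1)).mul (hEGp.comp (hEbp.pow N)))).add (PB.const (3 + e1))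
  obtain ⟨B, a', M, ha'0, h0B, ha', hM, hB, hrel, hli⟩ := hbas D0
  have haC : ((a' : ℤ) : ℂ) ≠ 0 := by exact_mod_cast ha'0
  have haQ : ((a' : ℤ) : ℚ) ≠ 0 := by exact_mod_cast ha'0
  -- the coordinates
  set b : B → Fin n × Fin n → ℕ := fun k => ew k.1 with hb
  have hrel' : ∀ v, ∀ g ∈ SpS ℂ n, mnm g (ew v) = ∑ k, ((((M v k : ℤ) : ℚ) / a' : ℚ) : ℂ) * mnm g (b k) := by
    intro v g hg
    have h1 := hrel v g hg
    refine mul_left_cancel₀ haC ?_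
    rw [h1, Finset.mul_sum]
    refine Finset.sum_congr rfl fun k _ => ?_
    have h2 : ((((M v k : ℤ) : ℚ) / a' : ℚ) : ℂ) = (M v k : ℂ) / (a' : ℂ) := by push_cast; rfl
    rw [h2, ← mul_assoc, mul_div_cancel₀ _ haC]
  choose wd hwd using fun s : {s : Fin n × Fin n → ℕ // dg s ≤ D0} => exists_word s.1 s.2
  set w : (Fin n × Fin n → ℕ) → B → ℚ := fun s k => if h : dg s ≤ D0 then ((M (wd ⟨s, h⟩) k : ℤ) : ℚ) / a' else 0 with hw
  have hww : ∀ s, dg s ≤ D0 → ∀ g ∈ SpS ℂ n, mnm g s = ∑ k, (w s k : ℂ) * mnm g (b k) := by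
    intro s hs g hg
    rw [← hwd ⟨s, hs⟩ g, hrel' (wd ⟨s, hs⟩) g hg]
    refine Finset.sum_congr rfl fun k _ => ?_
    rw [hw]
    simp only [dif_pos hs]
  -- the relations between the power series
  have hps : ∀ (g : ℕ) (v : Fin D0 → Option (Fin (n * n))), (a' : PowerSeries ℚ) * mnm (Zr Δ.Z g) (ew v) =
      ∑ k : B, (M v k : PowerSeries ℚ) * mnm (Zr Δ.Z g) (ew k.1) := by
    intro g v
    have h0 := mnm_id (w := fun s k => if s = ew v then ((M v k : ℤ) : ℚ) / a' else w s k) (b := b) Δ.zJ hρ0 hZ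
      (D := D0) (fun s hs g hg => by
        by_cases hsv : s = ew v
        · simp only [if_pos hsv]
          rw [hsv]
          exact hrel' v g hg
        · simp only [if_neg hsv]
          exact hww s hs g hg) (ew v) (ew_deg v) 0
    rw [Zg_zero] at h0
    have h1 : mnm (Zr Δ.Z g) (ew v) = ∑ k : B, PowerSeries.C (((M v k : ℤ) : ℚ) / a') * mnm (Zr Δ.Z g) (b k) := by
      unfold Zr
      rw [mnm_map, h0, map_sum]
      refine Finset.sum_congr rfl fun k _ => ?_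
      simp only [if_true]
      rw [map_mul, rs_C, mnm_map]
    rw [h1, Finset.mul_sum]
    refine Finset.sum_congr rfl fun k _ => ?_
    rw [← mul_assoc]
    congr 1
    have h2 : ((a' : ℤ) : PowerSeries ℚ) = PowerSeries.C ((a' : ℤ) : ℚ) := by rw [map_intCast]
    have h3 : ((M v k : ℤ) : PowerSeries ℚ) = PowerSeries.C ((M v k : ℤ) : ℚ) := by rw [map_intCast]
    rw [h2, h3, ← map_mul, mul_div_cancel₀ _ haQ]
  have hsys : ∀ g : ℕ, GSys q (((g : ℝ) + 2) ^ E₀ D0) (TT g) (fun k : B => mnm (Zr Δ.Z g) (b k)) := fun g =>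
    sysG hGS D0 B a' M (Eb D0) ha'0 ha' hM g (hps g)
  refine ⟨B, inferInstance, b, w, hww, fun H t ht => ?_⟩
  have hmulD := hmul D0 B (fun g k => mnm (Zr Δ.Z g) (b k)) TT hsys H
  have hGD := hG (Eb D0 ^ N)
  set E'v := E' D0
  set EGv := EG (Eb D0 ^ N)
  have ht' : (H + 2) ^ (E + (E'v + 1) * EGv + (3 + e1)) ≤ t := ht
  have hH2 : 1 ≤ H + 2 := by omega
  have htR : ∀ a ≤ E + (E'v + 1) * EGv + (3 + e1), ((H : ℝ) + 2) ^ a ≤ t := by
    intro a ha'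
    have h2 : (H + 2) ^ a ≤ t := (Nat.pow_le_pow_right hH2 ha').trans ht'
    exact_mod_cast h2
  have hHR : (0 : ℝ) ≤ H := by positivity
  have h4 : ((H : ℝ) + 8) * (1 / ρ) ≤ t := by
    have h5 : (H : ℝ) + 8 ≤ ((H : ℝ) + 2) ^ 3 := by nlinarith [sq_nonneg (H : ℝ), mul_nonneg hHR (sq_nonneg (H : ℝ))]
    have h6 : 1 / ρ ≤ ((H : ℝ) + 2) ^ e1 := he1.trans (pow_le_pow_left₀ (by norm_num) (by linarith) _)
    calc ((H : ℝ) + 8) * (1 / ρ) ≤ ((H : ℝ) + 2) ^ 3 * ((H : ℝ) + 2) ^ e1 :=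
          mul_le_mul h5 h6 (by positivity) (by positivity)
      _ = ((H : ℝ) + 2) ^ (3 + e1) := by rw [pow_add]
      _ ≤ t := htR _ (by omega)
  have h8 : (0 : ℝ) < (H : ℝ) + 8 := by positivity
  have ht0 : (0 : ℝ) < t := lt_of_lt_of_le (by positivity) h4
  have hHt : (H : ℝ) < t := by
    have : (H : ℝ) + 8 ≤ ((H : ℝ) + 8) * (1 / ρ) := le_mul_of_one_le_right h8.le (by
      rw [le_div_iff₀ hρ0]; linarith)
    linarith
  refine ⟨hHt, fun g hg hgH => ?_⟩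
  have hgH' : ∀ i, g i ≤ H := fun i => (hgH i).2
  have h2 := hmulD g hgH'
  set wf : (Fin N → B) → PowerSeries ℚ := fun e => ∏ l, mnm (Zr Δ.Z (g l)) (b (e l)) with hwf
  have hone : wf (fun _ => (⟨fun _ => none, h0B⟩ : B)) = 1 := by
    rw [hwf]
    refine Finset.prod_eq_one fun l _ => ?_
    show mnm (Zr Δ.Z (g l)) (ew fun _ => none) = 1
    rw [ew_none]
    simp [mnm]
  have hPT : Polynomial.aeval (1 / (t : ℝ)) (∏ p, TT (g p)) ≠ 0 := by
    rw [map_prod, Finset.prod_ne_zero_iff]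
    intro p _
    refine hTT (g p) t (hgH p).1 ?_
    have hgR : ((g p : ℕ) : ℝ) + 2 ≤ (H : ℝ) + 2 := by
      have : ((g p : ℕ) : ℝ) ≤ H := by exact_mod_cast hgH' p
      linarith
    exact (pow_le_pow_left₀ (by positivity) hgR _).trans (htR E (by omega))
  have hcard : Fintype.card (Fin N → B) ≤ Eb D0 ^ N := by
    rw [Fintype.card_fun, Fintype.card_coe, Fintype.card_fin]
    exact Nat.pow_le_pow_left hB _
  have hbig : (2 * ((H : ℝ) + 2) ^ E'v) ^ EGv ≤ t := by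
    have hH22 : (2 : ℝ) ≤ (H : ℝ) + 2 := by linarith
    refine le_trans ?_ (htR ((E'v + 1) * EGv) (by omega))
    rw [pow_mul]
    refine pow_le_pow_left₀ (by positivity) ?_ _
    rw [pow_succ, mul_comm]
    exact mul_le_mul_of_nonneg_left hH22 (by positivity)
  have hind := hGD (Fin N → B) (((H : ℝ) + 2) ^ E'v) (∏ p, TT (g p)) wf (fun _ => (⟨fun _ => none, h0B⟩ : B)) t hcard h2
    hone (li_dil hn ha ha0 h0 hf Δ b hli g (fun l => (hgH l).1) hg) hbig hPT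
  have hval : (fun e : Fin N → B => ∏ i, mnm (Ez Δ.Z ((g i : ℝ) / t)) (b (e i))) = fun e => ev t (wf e) := by
    funext e
    have hz : ∀ l, (g l : ℝ) * |1 / (t : ℝ)| ≤ ρ := by
      intro l
      have hgl : (g l : ℝ) ≤ H := by exact_mod_cast hgH' l
      rw [abs_of_pos (by positivity), mul_one_div, div_le_iff₀ ht0]
      have h7 : ((H : ℝ) + 8) * (1 / ρ) * ρ = (H : ℝ) + 8 := by field_simp
      nlinarith
    have hr0 : (0 : ℝ) ≤ |1 / (t : ℝ)| := abs_nonneg _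
    have hSR : ∀ l, SRm |1 / (t : ℝ)| (Zr Δ.Z (g l)) := fun l => Zr_SRm (g l) (hZ.mono (by positivity) (hz l))
    rw [ev_eq, hwf]
    simp only
    rw [E_prod Finset.univ (F := fun l => mnm (Zr Δ.Z (g l)) (b (e l))) hr0 (fun l _ => SR_mnm hr0 (hSR l) _) le_rfl]
    refine Finset.prod_congr rfl fun l _ => ?_
    rw [E_mnm hr0 (hSR l) _ le_rfl, Zr_Ez, mul_one_div]
  rw [hval]
  exact hind

end Pool.Agent.D0H75.HS
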