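import Pool.Agent.R351.GD.Hy.Inp
import Pool.Agent.D0H75.HS.Val

/-!
# Hyperelliptic families: no relations of small degree between the Cayley coordinates at `g ^ G / t`
-/

set_option autoImplicit false

open Matrix Polynomial Filter Topology

namespace Pool.Agent.D0H75.HS

open Pool.Agent.Y118.HP Pool.Agent.Y113 Pool.Agent.Y37.GF
open Pool.Agent.Y118.HG hiding zz zz_im zz_im_neg zz_im_pos zz_real zz_mem Comp diffOn_evs IdM mem_IdM_of mem_of_IdM MonS MonL mem_MonL pf_MonL crossing Sep one_crossing Tk_MonL sp_MonL mem_MonS func_inv_sh exists_P li_shift small_arg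
open Pool.Agent.R351.GD Pool.Agent.R351.GD.Hy

variable {n : ℕ}

/-- powers of distinct numbers give separated multiples -/
theorem exists_G (a : Fin n → ℝ) (ha0 : ∀ i, a i ≠ 0) : ∃ G : ℕ, 0 < G ∧ ∀ {r : ℕ} (g : Fin r → ℕ), Function.Injective g →
    (∀ l, 1 ≤ g l) → Sep a (fun l => ((g l ^ G : ℕ) : ℝ)) := by
  classical
  set B : Fin n → Fin n → ℕ := fun i i' => if h : ∃ r : ℚ, (r : ℝ) = a i' / a i then h.choose.num.natAbs + h.choose.den
    else 0 with hB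
  refine ⟨(∑ i, ∑ i', B i i') + 1, Nat.succ_pos _, fun {r} g hg hg1 l l' hll i i' h => ?_⟩
  set G := (∑ i, ∑ i', B i i') + 1 with hG
  have hgl : (g l : ℝ) ≠ 0 := by
    have := hg1 l
    exact_mod_cast (by omega : g l ≠ 0)
  have hglQ : (g l : ℚ) ≠ 0 := by
    have := hg1 l
    exact_mod_cast (by omega : g l ≠ 0)
  set u : ℚ := (g l' : ℚ) / g l with hu
  have h1 : ((u ^ G : ℚ) : ℝ) = a i' / a i := by
    rw [hu]
    push_cast at h ⊢
    have h2 := ha0 i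
    have h3 := ha0 i'
    have h4 : (g l : ℝ) ^ G ≠ 0 := pow_ne_zero _ hgl
    rw [div_eq_div_iff h2 h3] at h
    rw [div_pow, div_eq_div_iff h4 h2]
    linarith
  have hex : ∃ r : ℚ, (r : ℝ) = a i' / a i := ⟨_, h1⟩
  have h2 : hex.choose = u ^ G := by
    have h3 := hex.choose_spec.trans h1.symm
    exact Rat.cast_injective (α := ℝ) h3
  have h3 : B i i' = (u ^ G).num.natAbs + (u ^ G).den := by
    rw [hB]
    simp only [dif_pos hex, h2]
  have h4 : B i i' ≤ ∑ i, ∑ i', B i i' :=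
    (Finset.single_le_sum (f := fun i' => B i i') (fun _ _ => Nat.zero_le _) (Finset.mem_univ i')).trans
      (Finset.single_le_sum (f := fun i => ∑ i', B i i') (fun _ _ => Nat.zero_le _) (Finset.mem_univ i))
  have hu0 : 0 < u := by
    have h5 : (0 : ℚ) < g l' := by
      have := hg1 l'
      exact_mod_cast this
    have h6 : (0 : ℚ) < g l := by
      have := hg1 l
      exact_mod_cast this
    exact div_pos h5 h6
  have hu1 : u ≠ 1 := by
    intro h5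
    rw [hu, div_eq_one_iff_eq hglQ] at h5
    exact hll (hg (by exact_mod_cast h5.symm))
  have h5 : 2 ≤ u.num.natAbs ∨ 2 ≤ u.den := by
    by_contra hcon
    push Not at hcon
    have h6 : 0 < u.num := Rat.num_pos.2 hu0
    have h7 := u.den_pos
    have h8 : u.den = 1 := by omega
    have h9 : u.num = 1 := by omega
    apply hu1
    rw [← Rat.num_div_den u, h8, h9]
    norm_num
  have h6 : 2 ^ G ≤ B i i' := by
    rw [h3, Rat.num_pow, Rat.den_pow, Int.natAbs_pow]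
    rcases h5 with h5 | h5
    · exact (Nat.pow_le_pow_left h5 G).trans (Nat.le_add_right _ _)
    · exact (Nat.pow_le_pow_left h5 G).trans (Nat.le_add_left _ _)
  have h7 : G < 2 ^ G := Nat.lt_two_pow_self
  omega

/-- small arguments -/
theorem small_arg (G : ℕ) {ε : ℝ} (hε : 0 < ε) : ∃ E : ℕ, ∀ H t : ℕ, (H + 2) ^ E ≤ t → ∀ g ≤ H,
    |((g ^ G : ℕ) : ℝ) / t| < ε := by
  obtain ⟨e, he⟩ := pow_unbounded_of_one_lt (1 / ε) (show (1 : ℝ) < 2 by norm_num)
  refine ⟨G + e, fun H t ht g hg => ?_⟩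
  have h1 : g ^ G * 2 ^ e ≤ t := by
    refine le_trans ?_ ht
    rw [pow_add]
    exact Nat.mul_le_mul (Nat.pow_le_pow_left (by omega) _) (Nat.pow_le_pow_left (by omega) _)
  have ht0 : 0 < t := lt_of_lt_of_le (pow_pos (by omega) _) ht
  have ht0' : (0 : ℝ) < t := by exact_mod_cast ht0
  have h2 : ((g ^ G : ℕ) : ℝ) * 2 ^ e ≤ t := by exact_mod_cast h1
  have h3 : (0 : ℝ) ≤ ((g ^ G : ℕ) : ℝ) := Nat.cast_nonneg _
  rw [abs_of_nonneg (by positivity), div_lt_iff₀ ht0']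
  have h4 : 1 < 2 ^ e * ε := by
    have h5 : 1 / ε * ε = 1 := by field_simp
    rw [← h5]
    exact mul_lt_mul_of_pos_right he hε
  rcases h3.eq_or_lt with h5 | h5
  · rw [← h5]
    positivity
  · calc ((g ^ G : ℕ) : ℝ) < ((g ^ G : ℕ) : ℝ) * (2 ^ e * ε) := lt_mul_of_one_lt_right h5 h4
      _ = ε * (((g ^ G : ℕ) : ℝ) * 2 ^ e) := by ring
      _ ≤ ε * t := mul_le_mul_of_nonneg_left h2 hε.le

/-- the coordinates at `g ^ G / t` -/
noncomputable def vd {a : Fin n → ℝ} {m : Fin (n + 1)} {f : ℚ[X]} (Δ : ZDat n a m f) (G : ℕ) (t g : ℕ) (s : Sy n) : ℂ :=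
  co ((Ez Δ.Z (((g ^ G : ℕ) : ℝ) / t)).map (algebraMap ℝ ℂ)) s

/-- no relations between the coordinates of the values, with exponents polynomial in the degree -/
theorem inpD (hn : Even n) {a : Fin n → ℝ} (ha : StrictMono a) (ha0 : ∀ i, a i ≠ 0) {m : Fin (n + 1)} {f : ℚ[X]}
    (h0 : InGap a m 0) (hf : f.map (algebraMap ℚ ℝ) = ∏ i, (X - C (a i))) (hf0 : f.coeff 0 ≠ 0) (Δ : ZDat n a m f)
    {G : ℕ} (hG0 : 0 < G) (hsep : ∀ {r : ℕ} (g : Fin r → ℕ), Function.Injective g → (∀ l, 1 ≤ g l) →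
      Sep a (fun l => ((g l ^ G : ℕ) : ℝ))) (N : ℕ) : ∃ Ev : ℕ → ℕ, PB Ev ∧ ∀ (Δ0 H t : ℕ), (H + 2) ^ Ev Δ0 ≤ t → ∀ g : Fin N → ℕ,
      Function.Injective g → (∀ i, 1 ≤ g i ∧ g i ≤ H) → ∀ P : MvPolynomial (Fin N × Sy n) ℚ, P.totalDegree ≤ Δ0 →
      MvPolynomial.aeval (fun p : Fin N × Sy n => vd Δ G t (g p.1) p.2) P = 0 → P = 0 := by
  classical
  obtain ⟨B, hB1, hB2⟩ := exists_deg (nums N n) (dens N n)
  obtain ⟨E1, hE1p, hE1⟩ := li_valD hn ha ha0 h0 hf hf0 Δ N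
  obtain ⟨ε, hε, hball⟩ := Metric.eventually_nhds_iff.1 ((Ez_mem hn ha h0 hf Δ).and (Ez_cd hn ha h0 hf Δ))
  obtain ⟨E2, hE2⟩ := small_arg G hε
  refine ⟨fun Δ0 => (G + 1) * E1 (Δ0 * B) + E2, ((PB.const (G + 1)).mul (hE1p.comp (PB.id.mul (PB.const B)))).add
    (PB.const E2), fun Δ0 H t ht g hginj hgH P hP hPv => ?_⟩
  obtain ⟨κ, hfin, b, w, hw, hE1⟩ := hE1 (Δ0 * B)
  have hH2 : 1 ≤ H + 2 := by omega
  have ht : (H + 2) ^ ((G + 1) * E1 (Δ0 * B) + E2) ≤ t := ht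
  have ht1 : (H ^ G + 2) ^ E1 (Δ0 * B) ≤ t := by
    refine le_trans ?_ ((Nat.pow_le_pow_right hH2 (Nat.le_add_right _ _)).trans ht)
    rw [pow_mul]
    refine Nat.pow_le_pow_left ?_ _
    have h2 : H ^ G ≤ (H + 2) ^ G := Nat.pow_le_pow_left (by omega) _
    have h3 : 1 ≤ (H + 2) ^ G := Nat.one_le_pow _ _ (by omega)
    have h4 : 2 ^ G ≤ (H + 2) ^ G := Nat.pow_le_pow_left (by omega) _
    have h5 : 2 ≤ 2 ^ G := Nat.le_self_pow hG0.ne' 2
    rw [pow_succ]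
    nlinarith
  have ht2 : (H + 2) ^ E2 ≤ t := (Nat.pow_le_pow_right hH2 (Nat.le_add_left _ _)).trans ht
  obtain ⟨-, hLI⟩ := hE1 (H ^ G) t ht1
  have hLI := hLI (fun l => g l ^ G) (hsep g hginj fun l => (hgH l).1)
    (fun l => ⟨Nat.one_le_pow _ _ (hgH l).1, Nat.pow_le_pow_left (hgH l).2 _⟩)
  have hgood : ∀ l, Ez Δ.Z (((g l ^ G : ℕ) : ℝ) / t) ∈ SpS ℝ n ∧
      cd ((Ez Δ.Z (((g l ^ G : ℕ) : ℝ) / t)).map (algebraMap ℝ ℂ)) ≠ 0 := fun l =>
    hball (by rw [dist_zero_right]; exact hE2 H t ht2 (g l) (hgH l).2)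
  set Zc : Fin N → Matrix (Fin n) (Fin n) ℂ := fun l =>
    (Ez Δ.Z (((g l ^ G : ℕ) : ℝ) / t)).map (algebraMap ℝ ℂ) with hZc
  set Q := cle Δ0 P (nums N n) (dens N n) with hQ
  have hQv : ∀ S : Fin N → Matrix (Fin n) (Fin n) ℂ, (∀ l, cd (S l) ≠ 0) →
      MvPolynomial.aeval (px S) Q = (∏ l, cd (S l)) ^ Δ0 * MvPolynomial.aeval (fun x : Fin N × Sy n => co (S x.1) x.2) P := by
    intro S hS
    rw [hQ, cle_val hP (nums N n) (dens N n) (px S) (fun x : Fin N × Sy n => co (S x.1) x.2)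
      (fun x => nums_val hS x), dens_val]
  have hQC : DC (Δ0 * B) (1 : Submodule ℚ ℂ) (Q.map (algebraMap ℚ ℂ)) := by
    refine ⟨(totalDegree_map_le _ Q).trans (cle_deg hP hB1 hB2), fun s => ?_⟩
    rw [MvPolynomial.coeff_map, Submodule.mem_one]
    exact ⟨Q.coeff s, rfl⟩
  have hQm : ∀ S : Fin N → Matrix (Fin n) (Fin n) ℂ, MvPolynomial.aeval (px S) (Q.map (algebraMap ℚ ℂ)) =
      MvPolynomial.aeval (px S) Q := fun S => MvPolynomial.aeval_map_algebraMap ℂ (px S) Q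
  obtain ⟨c, hc, hexp⟩ := expand hw hQC
  choose q hq using fun e => Submodule.mem_one.1 (hc e)
  have hZsp : ∀ l, Zc l ∈ SpS ℂ n := fun l => SpS_map _ (hgood l).1
  have h1 := hexp Zc hZsp
  rw [hQm, hQv Zc fun l => (hgood l).2] at h1
  have h2 : MvPolynomial.aeval (fun x : Fin N × Sy n => co (Zc x.1) x.2) P = 0 := hPv
  rw [h2, mul_zero] at h1
  have hq0 : ∀ e, q e = 0 := by
    rw [Fintype.linearIndependent_iff] at hLI
    refine hLI q ?_
    have h3 : algebraMap ℝ ℂ (∑ e, q e • ∏ i, mnm (Ez Δ.Z (((g i ^ G : ℕ) : ℝ) / t)) (b (e i))) = 0 := by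
      rw [map_sum, h1]
      refine Finset.sum_congr rfl fun e _ => ?_
      rw [Algebra.smul_def, map_mul, map_prod, ← hq e]
      congr 1
      refine Finset.prod_congr rfl fun l _ => ?_
      rw [hZc]
      simp only
      rw [mnm_map]
    exact (map_eq_zero_iff _ (algebraMap ℝ ℂ).injective).1 h3
  have hvan : ∀ S : Fin N → Matrix (Fin n) (Fin n) ℂ, (∀ l, S l ∈ SpS ℂ n) → MvPolynomial.aeval (px S) Q = 0 := by
    intro S hS
    rw [← hQm, hexp S hS]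
    refine Finset.sum_eq_zero fun e _ => ?_
    rw [← hq e, hq0 e, map_zero, zero_mul]
  have hPC : P.map (algebraMap ℚ ℂ) = 0 := by
    refine chart_zero _ fun y hy => ?_
    rw [MvPolynomial.aeval_map_algebraMap]
    have h3 := fun l => co_Cay hn (hy l)
    have h4 := hQv (fun l => Cay fun p => y (l, p)) fun l => (h3 l).1
    rw [hvan _ fun l => Cay_mem hn (hy l)] at h4
    have h5 : (fun x : Fin N × Sy n => co (Cay fun p => y (x.1, p)) x.2) = y := by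
      funext x
      rw [(h3 x.1).2]
    rw [h5] at h4
    exact (mul_eq_zero.1 h4.symm).resolve_left
      (pow_ne_zero _ (Finset.prod_ne_zero_iff.2 fun l _ => (h3 l).1))
  exact (MvPolynomial.map_injective _ (algebraMap ℚ ℂ).injective) (by rw [hPC, map_zero])

end Pool.Agent.D0H75.HS
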