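import Pool.Agent.Y118.HG.Mon2

/-!
# Relations between the periods at the points `g l / s`: invariance under the symplectic groups

An adaptation of `Pool.Agent.Y118.HG.Mon`, where the points `1 / (s - g l)` are considered.
-/

set_option autoImplicit false
set_option maxHeartbeats 400000

open Complex Set Filter Topology Matrix

namespace Pool.Agent.D0H75.HS

open Pool.Agent.Y118.HP
open Pool.Agent.Y118.HG hiding zz zz_im zz_im_neg zz_im_pos zz_real zz_mem Comp diffOn_evs IdM mem_IdM_of mem_of_IdM MonS MonL mem_MonL pf_MonL crossing Sep one_crossing Tk_MonL sp_MonL mem_MonS func_inv_sh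

variable {n N : ℕ}

/-- the points -/
noncomputable def zz (g : Fin N → ℝ) (l : Fin N) (s : ℂ) : ℂ := g l / s

/-- compatibility of the positions with a real interval -/
def Comp (a : Fin n → ℝ) (g : Fin N → ℝ) (M : Fin N → Fin (n + 1)) (I : Set ℝ) : Prop :=
  ∀ s ∈ I, ∀ l, s ≠ 0 ∧ InGap a (M l) (g l / s)

variable {a : Fin n → ℝ} {g : Fin N → ℝ}

theorem ne_of_im {s : ℂ} (hs : s.im ≠ 0) : s ≠ 0 := by
  intro h
  apply hs
  rw [h]
  simp

theorem zz_im {s : ℂ} (l : Fin N) : (zz g l s).im = -(g l * s.im) / normSq s := by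
  unfold zz
  rw [div_eq_mul_inv, im_ofReal_mul, inv_im]
  ring

theorem zz_im_neg (hg : ∀ l, 0 < g l) {s : ℂ} (hs : 0 < s.im) (l : Fin N) : (zz g l s).im < 0 := by
  rw [zz_im]
  have h1 : 0 < normSq s := normSq_pos.2 (ne_of_im hs.ne')
  have h2 := mul_pos (hg l) hs
  exact div_neg_of_neg_of_pos (by linarith) h1

theorem zz_im_pos (hg : ∀ l, 0 < g l) {s : ℂ} (hs : s.im < 0) (l : Fin N) : 0 < (zz g l s).im := by
  rw [zz_im]
  have h1 : 0 < normSq s := normSq_pos.2 (ne_of_im hs.ne)
  have h2 := mul_pos_of_neg_of_neg (neg_lt_zero.2 (hg l)) hs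
  exact div_pos (by linarith) h1

theorem zz_real (s : ℝ) (l : Fin N) : zz g l (s : ℂ) = ((g l / s : ℝ) : ℂ) := by
  unfold zz
  push_cast
  rfl

theorem zz_mem (hg : ∀ l, 0 < g l) {M : Fin N → Fin (n + 1)} {I : Set ℝ} (hc : Comp a g M I) {s : ℂ} (hs : s ∈ DI I)
    (l : Fin N) : s ≠ 0 ∧ zz g l s ∈ Dm a (M l) := by
  by_cases h0 : s.im = 0
  · have h1 : s.re ∈ I := by
      rcases hs with h | h
      · exact absurd h0 h
      · exact h
    have hsr : s = (s.re : ℂ) := by
      apply Complex.ext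
      · simp
      · simpa using h0
    obtain ⟨h2, h3⟩ := hc _ h1 l
    rw [hsr, zz_real]
    refine ⟨?_, h3.mem_Dm⟩
    exact_mod_cast h2
  · refine ⟨ne_of_im h0, mem_Dm_of_im _ _ ?_⟩
    rcases lt_or_gt_of_ne h0 with h | h
    · exact (zz_im_pos hg h l).ne'
    · exact (zz_im_neg hg h l).ne

theorem diffOn_evs (hg : ∀ l, 0 < g l) (ha : StrictMono a) {M : Fin N → Fin (n + 1)} {I : Set ℝ} (hc : Comp a g M I)
    (P : MvPolynomial (Option (Fin N × Fin n × Fin n)) ℂ) (H : Fin N → Matrix (Fin n) (Fin n) ℂ) :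
    DifferentiableOn ℂ (fun s => evs P s (fun l => H l * PM a (M l) (zz g l s))) (DI I) := by
  unfold evs
  refine differentiableOn_eval (fun (o : Option (Fin N × Fin n × Fin n)) s =>
    pt (fun l => H l * PM a (M l) (zz g l s)) s o) ?_ P
  rintro (_ | x)
  · exact differentiableOn_id
  · show DifferentiableOn ℂ (fun s => (H x.1 * PM a (M x.1) (zz g x.1 s)) x.2.1 x.2.2) (DI I)
    simp only [Matrix.mul_apply]
    refine DifferentiableOn.fun_sum fun k _ => ?_
    refine (differentiableOn_const _).mul ?_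
    have h1 : DifferentiableOn ℂ (fun z => perC (ee a (M x.1) z) k (x.2.2 : ℕ)) (Dm a (M x.1)) :=
      differentiableOn_perC ha (M x.1) k x.2.2
    refine h1.comp (f := fun s => zz g x.1 s) ?_ ?_
    · unfold zz
      exact (differentiableOn_const _).div differentiableOn_id fun s hs => (zz_mem hg hc hs x.1).1
    · exact fun s hs => (zz_mem hg hc hs x.1).2

/-- relations valid on the upper half plane -/
def IdM (a : Fin n → ℝ) (g : Fin N → ℝ) (M : Fin N → Fin (n + 1)) :
    Set (MvPolynomial (Option (Fin N × Fin n × Fin n)) ℂ) :=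
  {P | ∀ s : ℂ, 0 < s.im → evs P s (fun l => PM a (M l) (zz g l s)) = 0}

theorem mem_IdM_of (hg : ∀ l, 0 < g l) (ha : StrictMono a) {M : Fin N → Fin (n + 1)} {P : MvPolynomial (Option (Fin N × Fin n × Fin n)) ℂ}
    (h : P ∈ IdM a g M) : sbt (fun l => Cm n (M l : ℕ)) P ∈ IdM a g (fun _ => 0) := by
  intro s hs
  rw [evs_sbt]
  have h1 := h s hs
  have h2 : (fun l => PM a (M l) (zz g l s)) = (fun l => Cm n (M l : ℕ)) * fun l => PM a 0 (zz g l s) := by
    funext l
    exact PM_Cm ha (M l) (zz_im_neg hg hs l)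
  rw [h2] at h1
  exact h1

theorem mem_of_IdM (hg : ∀ l, 0 < g l) (ha : StrictMono a) (M : Fin N → Fin (n + 1)) {P : MvPolynomial (Option (Fin N × Fin n × Fin n)) ℂ}
    (h : P ∈ IdM a g (fun _ => 0)) : sbt (fun l => Ci n (M l : ℕ)) P ∈ IdM a g M := by
  intro s hs
  rw [evs_sbt]
  have h1 := h s hs
  have h2 : (fun l => PM a 0 (zz g l s)) = (fun l => Ci n (M l : ℕ)) * fun l => PM a (M l) (zz g l s) := by
    funext l
    exact PM_Ci ha (M l) (zz_im_neg hg hs l)
  rw [h2] at h1
  exact h1

/-- the monoid of the tuples of matrices which preserve the relations -/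
def MonS (a : Fin n → ℝ) (g : Fin N → ℝ) : Submonoid (Fin N → Matrix (Fin n) (Fin n) ℂ) where
  carrier := {H | ∀ P ∈ IdM a g (fun _ => 0), sbt H P ∈ IdM a g (fun _ => 0)}
  one_mem' := by
    intro P hP s hs
    rw [evs_sbt, one_mul]
    exact hP s hs
  mul_mem' := by
    intro H H' hH hH' P hP
    have h1 := hH' (sbt H P) (hH P hP)
    intro s hs
    have h2 := h1 s hs
    rw [evs_sbt, evs_sbt] at h2
    rw [evs_sbt, mul_assoc]
    exact h2

/-- the matrices at the place `l` -/
def MonL (a : Fin n → ℝ) (g : Fin N → ℝ) (l : Fin N) : Submonoid (Matrix (Fin n) (Fin n) ℂ) where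
  carrier := {h | ms l h ∈ MonS a g}
  one_mem' := by
    show ms l 1 ∈ MonS a g
    rw [ms_one]
    exact one_mem _
  mul_mem' := by
    intro h h' hh hh'
    show ms l (h * h') ∈ MonS a g
    rw [ms_mul]
    exact mul_mem hh hh'

theorem mem_MonL {l : Fin N} {h : Matrix (Fin n) (Fin n) ℂ} :
    h ∈ MonL a g l ↔ ∀ P ∈ IdM a g (fun _ => 0), ∀ s : ℂ, 0 < s.im →
      evs P s (ms l h * fun l => PM a 0 (zz g l s)) = 0 := by
  constructor
  · intro hh P hP s hs
    have := (show ms l h ∈ MonS a g from hh) P hP s hs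
    rwa [evs_sbt] at this
  · intro hh
    show ms l h ∈ MonS a g
    intro P hP s hs
    rw [evs_sbt]
    exact hh P hP s hs

/-- polynomial families -/
theorem pf_MonL (l : Fin N) : PF (MonL a g l) := by
  intro M A hA h s
  rw [mem_MonL]
  intro P hP w hw
  set X : Fin N → Matrix (Fin n) (Fin n) ℂ := fun l => PM a 0 (zz g l w) with hX
  set MX : Fin N → Matrix (Fin n) (Fin n) (Polynomial ℂ) := fun k =>
    if k = l then M * (X k).map Polynomial.C else (X k).map Polynomial.C with hMX
  set p : Polynomial ℂ := MvPolynomial.eval₂ Polynomial.C (pt MX (Polynomial.C w)) P with hp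
  have hev : ∀ s, p.eval s = evs P w (ms l (M.map (Polynomial.eval s)) * X) := by
    intro s
    have h1 := MvPolynomial.eval₂_comp_left (Polynomial.evalRingHom s) (Polynomial.C) (pt MX (Polynomial.C w)) P
    rw [← hp] at h1
    have h2 : (Polynomial.evalRingHom s) p = p.eval s := rfl
    rw [← h2, h1]
    unfold evs
    rw [MvPolynomial.eval]
    congr 1
    · ext c
      simp
    · funext o
      rcases o with _ | x
      · simp [pt]
      · simp only [Function.comp, pt, Option.elim]
        rw [ms_mul_apply]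
        simp only [hMX]
        split_ifs with hk
        · simp [Matrix.mul_apply, Polynomial.eval_finsetSum]
        · simp
  have hp0 : p = 0 := by
    apply Polynomial.eq_zero_of_infinite_isRoot
    refine hA.mono fun s hs => ?_
    show p.eval s = 0
    rw [hev]
    exact mem_MonL.1 (h s hs) P hP w hw
  rw [← hev, hp0, Polynomial.eval_zero]

/-- a crossing gives a monodromy matrix -/
theorem crossing (hg : ∀ l, 0 < g l) (ha : StrictMono a) (l0 : Fin N) (i : Fin n) (M : Fin N → Fin (n + 1)) {Il Ir : Set ℝ}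
    (hIl : IsOpen Il) (hIl' : Convex ℝ Il) (hIl'' : Il.Nonempty) (hIr : IsOpen Ir) (hIr' : Convex ℝ Ir)
    (hIr'' : Ir.Nonempty) (hcl : Comp a g (Function.update M l0 i.succ) Il)
    (hcr : Comp a g (Function.update M l0 i.castSucc) Ir) :
    Ci n (i : ℕ) * Tk i (2 * Complex.I) * Cm n (i : ℕ) ∈ MonL a g l0 := by
  rw [mem_MonL]
  intro Q hQ
  set Mr := Function.update M l0 i.castSucc with hMr
  set Ml := Function.update M l0 i.succ with hMl
  set P := sbt (fun l => Ci n (Mr l : ℕ)) Q with hP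
  have hPr : P ∈ IdM a g Mr := mem_of_IdM hg ha Mr hQ
  -- the two matrices
  have hupd : ∀ l, l ≠ l0 → Mr l = M l ∧ Ml l = M l := fun l hl =>
    ⟨Function.update_of_ne hl _ _, Function.update_of_ne hl _ _⟩
  have hr0 : Mr l0 = i.castSucc := Function.update_self _ _ _
  have hl0 : Ml l0 = i.succ := Function.update_self _ _ _
  have low : ∀ s : ℂ, s.im < 0 → (fun l => PM a (Mr l) (zz g l s)) =
      ms l0 (Tk i Complex.I) * fun l => PM a (Ml l) (zz g l s) := by
    intro s hs
    funext l
    rw [ms_mul_apply]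
    split_ifs with hl
    · subst hl
      rw [hr0, hl0]
      exact PM_upper' ha i (zz_im_pos hg hs l)
    · rw [(hupd l hl).1, (hupd l hl).2]
  have upp : ∀ s : ℂ, 0 < s.im → (fun l => PM a (Ml l) (zz g l s)) =
      ms l0 (Tk i Complex.I) * fun l => PM a (Mr l) (zz g l s) := by
    intro s hs
    funext l
    rw [ms_mul_apply]
    split_ifs with hl
    · subst hl
      rw [hr0, hl0]
      exact PM_lower ha i (zz_im_neg hg hs l)
    · rw [(hupd l hl).1, (hupd l hl).2]
  -- upper half plane to lower half plane through the right interval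
  have h1 : ∀ s ∈ DI Ir, evs P s (fun l => PM a (Mr l) (zz g l s)) = 0 := by
    refine zero_of_upper hIr hIr' hIr'' ?_ hPr
    have := diffOn_evs hg ha hcr P (fun _ => 1)
    simpa only [one_mul] using this
  -- lower half plane to upper half plane through the left interval
  have h2 : ∀ s ∈ DI Il, evs P s (fun l => ms l0 (Tk i Complex.I) l *
      PM a (Ml l) (zz g l s)) = 0 := by
    refine zero_of_lower hIl hIl' hIl'' (diffOn_evs hg ha hcl P _) fun s hs => ?_
    have h3 := h1 s (Or.inl hs.ne)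
    rw [low s hs] at h3
    exact h3
  intro s hs
  have h3 := h2 s (Or.inl hs.ne')
  have h4 : (fun l => ms l0 (Tk i Complex.I) l *
      PM a (Ml l) (zz g l s)) = ms l0 (Tk i (2 * Complex.I)) * fun l => PM a (Mr l) (zz g l s) := by
    have h5 := upp s hs
    funext l
    have h6 : PM a (Ml l) (zz g l s) = (ms l0 (Tk i Complex.I) * fun l => PM a (Mr l) (zz g l s)) l := congrFun h5 l
    rw [h6, ms_mul_apply, ms_mul_apply, ms_apply]
    by_cases hl : l = l0
    · rw [if_pos hl, if_pos hl, if_pos hl, ← mul_assoc, Tk_mul, two_mul]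
    · rw [if_neg hl, if_neg hl, if_neg hl, one_mul]
  rw [h4, hP, evs_sbt] at h3
  have h5 : (fun l => Ci n (Mr l : ℕ)) * (ms l0 (Tk i (2 * Complex.I)) * fun l => PM a (Mr l) (zz g l s)) =
      ms l0 (Ci n (i : ℕ) * Tk i (2 * Complex.I) * Cm n (i : ℕ)) * fun l => PM a 0 (zz g l s) := by
    funext l
    rw [Pi.mul_apply, ms_mul_apply, ms_mul_apply, PM_Cm ha (Mr l) (zz_im_neg hg hs l)]
    by_cases hl : l = l0
    · subst hl
      rw [if_pos rfl, if_pos rfl, hr0]
      simp only [Fin.val_castSucc, mul_assoc]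
    · rw [if_neg hl, if_neg hl, ← mul_assoc, (Cm_Ci _).2, one_mul]
  rw [h5] at h3
  exact h3

end Pool.Agent.D0H75.HS
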