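import Pool.Agent.D0H75.HS.Inp
import Pool.Agent.D0H75.LS.Tup
import Pool.Agent.R351.GD.H.Tup

/-!
# Hyperelliptic families: windows of multiples and tuples for the Cayley coordinates at rational points
-/

set_option autoImplicit false

open Module Filter Topology
open Polynomial (X C)
open scoped Polynomial

namespace Pool.Agent.D0H75.HS

open Pool.Agent.Y118.HP Pool.Agent.Y37.GF
open Pool.Agent.Y118.HG hiding zz zz_im zz_im_neg zz_im_pos zz_real zz_mem Comp diffOn_evs IdM mem_IdM_of mem_of_IdM MonS MonL mem_MonL pf_MonL crossing Sep one_crossing Tk_MonL sp_MonL mem_MonS func_inv_sh exists_P li_shift small_arg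
open Pool.Agent.R351.GD Pool.Agent.R351.GD.Hy
open Pool.Agent.R351.GD.H (sbE of_gen)
open Pool.Agent.D0H75.LS (pp pp_pos pp_ne pp_add cov loglog16)
open Pool.Agent.Y916.Hil Pool.Agent.Y916.Om

variable {n : ℕ}

/-- the coordinates at a real point -/
noncomputable def vQ {a : Fin n → ℝ} {m : Fin (n + 1)} {f : Polynomial ℚ} (Δ : ZDat n a m f) (x : ℝ) (p : Sy n) : ℂ :=
  co ((Ez Δ.Z x).map (algebraMap ℝ ℂ)) p

/-- one point of a window -/
theorem one_window (hn : Even n) {a : Fin n → ℝ} (ha : StrictMono a) {m : Fin (n + 1)} {f : Polynomial ℚ}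
    (h0 : InGap a m 0) (hf : f.map (algebraMap ℚ ℝ) = ∏ i, (X - C (a i))) (Δ : ZDat n a m f) {G : ℕ} (hG0 : 0 < G)
    (hsep : ∀ {r : ℕ} (g : Fin r → ℕ), Function.Injective g → (∀ l, 1 ≤ g l) →
      Sep a (fun l => ((g l ^ G : ℕ) : ℝ))) (N : ℕ) :
    ∃ E : ℕ → ℕ, PB E ∧ ∀ (δ : ℕ) (w : Fin N → ℂ) (H t : ℕ), (H + 2) ^ E δ ≤ t →
      ∃ S : Finset ℕ, S.card ≤ N ∧ ∀ g : ℕ, 1 ≤ g → g ≤ H → g ∉ S → ¬ RelK δ w (vQ Δ (((g ^ G : ℕ) : ℝ) / t)) := by
  classical
  have ha0 : ∀ i, a i ≠ 0 := fun i => ne_zero_of_gap h0 i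
  have hf0 : f.coeff 0 ≠ 0 := coeff_ne_of_gap h0 hf
  choose Ev hEvp hEv using inpD hn ha ha0 h0 hf hf0 Δ hG0 hsep
  obtain ⟨E, hEp, hE⟩ := awh_exp Ev hEvp (σ := Sy n) 1 N 1 1
  refine ⟨E, hEp, fun δ w H t ht => ?_⟩
  obtain ⟨S', hS', h⟩ := hE δ ℂ ℕ (fun t => t) (fun t g => vd Δ G t g)
      (fun N Δ0 H t ht g hg hgb P hP hP0 => hEv N Δ0 H t ht g hg hgb P hP hP0) H t ht
      (Fin N) w Finset.univ (by rw [Finset.card_univ, Fintype.card_fin]) (Pool.Agent.Y916.Om.Dom.univ w)
  refine ⟨S', hS', fun g hg1 hg2 hgS hrel => ?_⟩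
  obtain ⟨F, hF, hFd, P, hP, hP0, hne⟩ := hrel
  have h3 := h (fun _ => g) (fun a b _ => Subsingleton.elim a b) fun _ => ⟨hg1, hg2, hgS⟩
  have h4 := h3 F hF hFd (fun p : Fin 1 × Sy n => vQ Δ (((g ^ G : ℕ) : ℝ) / t) p.2) (fun p => ⟨1, one_ne_zero, by
      have h5 : vQ Δ (((g ^ G : ℕ) : ℝ) / t) p.2 - ((1 : F) : ℂ) * vd Δ G t g p.2 = 0 := by
        have h6 : vd Δ G t g p.2 = vQ Δ (((g ^ G : ℕ) : ℝ) / t) p.2 := rfl
        rw [h6]
        push_cast
        ring
      show vQ Δ (((g ^ G : ℕ) : ℝ) / t) p.2 - ((1 : F) : ℂ) * vd Δ G t g p.2 ∈ _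
      rw [h5]
      exact Submodule.zero_mem _⟩)
    (MvPolynomial.rename (Sum.map id fun o => ((0 : Fin 1), o)) P)
    ((MvPolynomial.totalDegree_rename_le _ _).trans hP) (by
      rw [MvPolynomial.aeval_rename, ← hP0]
      congr 2
      funext v
      rcases v with v | v <;> rfl)
  apply hne
  refine MvPolynomial.funext fun y => ?_
  rw [map_zero, sbE]
  have h5 := of_gen h4 fun p => y p.2
  rw [MvPolynomial.aeval_rename] at h5
  rw [← h5]
  congr 2
  funext v
  rcases v with v | v <;> rfl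

/-- windows of multiples for `S`-units -/
theorem sunit_window {G s : ℕ} (hG : 0 < G) (a : Fin s → ℕ) (ha : ∀ i, 2 ≤ a i) (P : ℝ → Prop) (E N H : ℕ)
    (b : Fin s → ℕ)
    (hwin : ∀ t : ℕ, (H + 2) ^ E ≤ t → ∃ S : Finset ℕ, S.card ≤ N ∧ ∀ g : ℕ, 1 ≤ g → g ≤ H → g ∉ S →
      ¬ P (((g ^ G : ℕ) : ℝ) / t))
    (hH : (H + 2) ^ E ≤ pp a b) (W : Finset ℚ)
    (hWx : ∀ x ∈ W, ∃ g : Fin s → ℕ, pp a g ≤ H ∧ x = (pp a g : ℚ) / pp a b)
    (hWP : ∀ x ∈ W, P ((x : ℚ) : ℝ)) : W.card ≤ G ^ s * N := by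
  classical
  choose! g hg using hWx
  have h1 := Finset.card_le_mul_card_image_of_maps_to (s := W) (t := (Finset.univ : Finset (Fin s → Fin G)))
    (f := fun x => fun i => (⟨g x i % G, Nat.mod_lt _ hG⟩ : Fin G)) (fun _ _ => Finset.mem_univ _) N (fun r _ => by
      set c : Fin s → ℕ := fun i => if (r i : ℕ) = 0 then 0 else G - r i with hc
      have hbc : pp a b ≤ pp a (b + c) := by
        rw [pp_add]
        exact Nat.le_mul_of_pos_right _ (pp_pos ha c)
      obtain ⟨S, hS, hSw⟩ := hwin (pp a (b + c)) (hH.trans hbc)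
      have hx : ∀ x ∈ W.filter (fun x => (fun i => (⟨g x i % G, Nat.mod_lt _ hG⟩ : Fin G)) = r), ∃ g' : Fin s → ℕ,
          g x + c = G • g' ∧ pp a g' ≤ H ∧ x = ((pp a g' ^ G : ℕ) : ℚ) / pp a (b + c) := by
        intro x hx
        obtain ⟨hx1, hx2⟩ := Finset.mem_filter.1 hx
        obtain ⟨h3, h4⟩ := hg x hx1
        have hr : ∀ i, g x i % G = r i := fun i => by
          have := congrFun hx2 i
          rw [← this]
        have h5 : ∀ i, ∃ u, g x i + c i = G * u ∧ u ≤ g x i := by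
          intro i
          have h6 := Nat.div_add_mod (g x i) G
          rw [hr i] at h6
          rcases Nat.eq_zero_or_pos (r i : ℕ) with h7 | h7
          · refine ⟨g x i / G, ?_, Nat.div_le_self _ _⟩
            rw [hc]
            simp only [h7, if_pos]
            omega
          · refine ⟨g x i / G + 1, ?_, ?_⟩
            · rw [hc]
              have h8 : (r i : ℕ) ≠ 0 := by omega
              have h9 := (r i).2
              simp only [if_neg h8]
              rw [Nat.mul_succ]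
              omega
            · have h8 : g x i / G ≤ G * (g x i / G) := Nat.le_mul_of_pos_left _ hG
              omega
        choose u hu1 hu2 using h5
        refine ⟨u, ?_, ?_, ?_⟩
        · funext i
          simp only [Pi.add_apply, Pi.smul_apply, smul_eq_mul]
          exact hu1 i
        · refine le_trans ?_ h3
          exact Finset.prod_le_prod' fun i _ => Nat.pow_le_pow_right (by have := ha i; omega) (hu2 i)
        · have h6 : pp a u ^ G = pp a (g x + c) := by
            unfold pp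
            rw [← Finset.prod_pow]
            refine Finset.prod_congr rfl fun i _ => ?_
            rw [← pow_mul, Pi.add_apply, hu1 i, mul_comm]
          rw [h6, pp_add, pp_add]
          have h7 : (pp a c : ℚ) ≠ 0 := by exact_mod_cast pp_ne ha c
          have h8 : (pp a b : ℚ) ≠ 0 := by exact_mod_cast pp_ne ha b
          conv_lhs => rw [h4]
          push_cast
          field_simp
      choose! g' hg' using hx
      refine (Finset.card_le_card_of_injOn (fun x => pp a (g' x)) (fun x hx => ?_) (fun x hx y hy hxy => ?_)).trans hS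
      · by_contra hcon
        obtain ⟨-, h3, h4⟩ := hg' x hx
        refine hSw (pp a (g' x)) (pp_pos ha _) h3 hcon ?_
        have h5 := hWP x (Finset.mem_filter.1 (Finset.mem_coe.1 hx)).1
        rw [h4] at h5
        push_cast at h5 ⊢
        exact h5
      · have e1 := (hg' x hx).2.2
        have e2 := (hg' y hy).2.2
        have e3 : pp a (g' x) = pp a (g' y) := hxy
        rw [e1, e2, e3])
  refine h1.trans (le_of_eq ?_)
  rw [Finset.card_univ, Fintype.card_pi]
  simp only [Fintype.card_fin, Finset.prod_const, Finset.card_univ]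
  rw [mul_comm]

open Classical in
/-- tuples, for families -/
theorem tup_fam {ι : Type} {Ω : Type} [Field Ω] [CharZero Ω] {σ : Type} [Fintype σ] (δ Z Q e' : ℕ)
    (k : ℕ) : ∀ (A : Fin k → Finset ι) (x : Fin k → ι → σ → Ω),
    (∀ (j : Fin k) (w' : Fin Q → Ω), ((A j).filter fun n => BadW δ δ e' w' (x j n)).card ≤ Z) →
    ∀ (e : ℕ) (υ : Type) [Fintype υ] (w : υ → Ω), Fintype.card υ + k * Fintype.card σ ≤ Q → e + k * δ ≤ e' →
    ((Fintype.piFinset A).filter fun t =>
      BadW δ δ e w (fun p : Fin k × σ => x p.1 (t p.1) p.2)).card ≤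
        Z * ∑ j, ∏ i, if i = j then 1 else (A i).card := by
  induction k with
  | zero =>
    intro A x H e υ _ w _ _
    rw [Finset.filter_false_of_mem, Finset.card_empty]
    · exact Nat.zero_le _
    · rintro g _ ⟨K, -, -, P, hP0, -, -, hPv⟩
      obtain ⟨a, rfl⟩ : ∃ a, P = MvPolynomial.C a := ⟨_, MvPolynomial.eq_C_of_isEmpty P⟩
      rw [MvPolynomial.aeval_C] at hPv
      apply hP0
      have : a = 0 := hPv
      rw [this, map_zero]
  | succ k ih =>
    intro A x H e υ _ w hυ he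
    have hek : e + k * δ ≤ e' := by
      have : (k + 1) * δ = k * δ + δ := by ring
      omega
    have heδ : e + δ ≤ e' := by
      have : (k + 1) * δ = k * δ + δ := by ring
      have h0 : 0 ≤ k * δ := Nat.zero_le _
      omega
    have hυk : Fintype.card υ + k * Fintype.card σ ≤ Q := by
      have : (k + 1) * Fintype.card σ = k * Fintype.card σ + Fintype.card σ := by ring
      omega
    set y : (Fin k → ι) → Fin k × σ → Ω := fun t p => x p.1.succ (t p.1) p.2 with hy
    set bad₁ := (Fintype.piFinset fun i : Fin k => A i.succ).filter fun t => BadW δ δ e w (y t) with hbad₁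
    set bad₂ : (Fin k → ι) → Finset ι := fun t => (A 0).filter fun n =>
      BadW δ δ (e + δ) (Sum.elim w (y t)) (x 0 n) with hbad₂
    have hsub : ((Fintype.piFinset A).filter fun t =>
        BadW δ δ e w (fun p : Fin (k + 1) × σ => x p.1 (t p.1) p.2)) ⊆
        ((A 0 ×ˢ bad₁).image fun p => (Fin.cons p.1 p.2 : Fin (k + 1) → ι)) ∪
        (((Fintype.piFinset fun i : Fin k => A i.succ).sigma bad₂).image
          fun p => (Fin.cons p.2 p.1 : Fin (k + 1) → ι)) := by
      intro t ht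
      obtain ⟨ht1, ht2⟩ := Finset.mem_filter.1 ht
      rw [Fintype.mem_piFinset] at ht1
      set en : Fin k × σ ⊕ σ ≃ Fin (k + 1) × σ :=
        { toFun := Sum.elim (fun p => (p.1.succ, p.2)) (fun s => (0, s))
          invFun := fun p => Fin.cases (Sum.inr p.2) (fun i => Sum.inl (i, p.2)) p.1
          left_inv := by rintro (⟨i, s⟩ | s) <;> simp
          right_inv := by
            rintro ⟨i, s⟩
            refine Fin.cases ?_ (fun i => ?_) i <;> simp } with hen
      have h4 : (fun j => x (en j).1 (t (en j).1) (en j).2) = Sum.elim (y fun i => t i.succ) (x 0 (t 0)) := by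
        funext j
        rcases j with ⟨i, s⟩ | s
        · rfl
        · rfl
      have h3 : BadW δ δ e w (Sum.elim (y fun i => t i.succ) (x 0 (t 0))) := by
        rw [← h4]
        exact BadW.reindex en ht2
      have htail : (fun i => t i.succ) ∈ Fintype.piFinset fun i : Fin k => A i.succ := by
        rw [Fintype.mem_piFinset]
        exact fun i => ht1 i.succ
      rcases h3.split with h5 | h5
      · refine Finset.mem_union_left _ (Finset.mem_image.2 ⟨(t 0, fun i => t i.succ), ?_, ?_⟩)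
        · exact Finset.mem_product.2 ⟨ht1 0, Finset.mem_filter.2 ⟨htail, h5⟩⟩
        · funext i
          refine Fin.cases ?_ (fun i => ?_) i <;> simp
      · refine Finset.mem_union_right _ (Finset.mem_image.2 ⟨⟨fun i => t i.succ, t 0⟩, ?_, ?_⟩)
        · exact Finset.mem_sigma.2 ⟨htail, Finset.mem_filter.2 ⟨ht1 0, h5⟩⟩
        · funext i
          refine Fin.cases ?_ (fun i => ?_) i <;> simp
    have hb1 : bad₁.card ≤ Z * ∑ j : Fin k, ∏ i : Fin k, if i = j then 1 else (A i.succ).card :=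
      ih (fun i => A i.succ) (fun j => x j.succ) (fun j w' => H j.succ w') e υ w hυk hek
    have hb2 : ∀ t, (bad₂ t).card ≤ Z := by
      intro t
      obtain ⟨w', hw'⟩ := exists_fin (Sum.elim w (y t)) (Q := Q) (by
        rw [Fintype.card_sum, Fintype.card_prod, Fintype.card_fin]
        exact hυk)
      refine (Finset.card_le_card fun n hn => ?_).trans (H 0 w')
      obtain ⟨hn1, hn2⟩ := Finset.mem_filter.1 hn
      exact Finset.mem_filter.2 ⟨hn1, BadW.mono_e (hn2.mono hw') heδ⟩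
    refine (Finset.card_le_card hsub).trans ((Finset.card_union_le _ _).trans
      ((add_le_add Finset.card_image_le Finset.card_image_le).trans ?_))
    rw [Finset.card_product, Finset.card_sigma]
    have h6 : ∑ t ∈ Fintype.piFinset (fun i : Fin k => A i.succ), (bad₂ t).card ≤ (∏ i : Fin k, (A i.succ).card) * Z := by
      refine (Finset.sum_le_card_nsmul _ _ _ fun g _ => hb2 g).trans ?_
      rw [smul_eq_mul, Fintype.card_piFinset]
    have h7 : ∑ j : Fin (k + 1), ∏ i : Fin (k + 1), (if i = j then 1 else (A i).card) =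
        ∏ i : Fin k, (A i.succ).card + (A 0).card * ∑ j : Fin k, ∏ i : Fin k, (if i = j then 1 else (A i.succ).card) := by
      rw [Fin.sum_univ_succ, Finset.mul_sum]
      congr 1
      · rw [Fin.prod_univ_succ]
        simp [Fin.succ_ne_zero]
      · refine Finset.sum_congr rfl fun j _ => ?_
        rw [Fin.prod_univ_succ]
        have h8 : (0 : Fin (k + 1)) ≠ j.succ := (Fin.succ_ne_zero j).symm
        rw [if_neg h8]
        congr 1
        refine Finset.prod_congr rfl fun i _ => ?_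
        simp only [Fin.succ_inj]
    rw [h7]
    have h8 := Nat.mul_le_mul_left (A 0).card hb1
    nlinarith [h6, h8]

open Classical in
/-- **tuples of `S`-units, for the Cayley coordinates** -/
theorem vQ_tuples (hn : Even n) {N : ℕ} {a : Fin N → Fin n → ℝ} (ha : ∀ l, StrictMono (a l)) {m : Fin N → Fin (n + 1)}
    {f : Fin N → Polynomial ℚ} (h0 : ∀ l, InGap (a l) (m l) 0)
    (hf : ∀ l, (f l).map (algebraMap ℚ ℝ) = ∏ i, (X - C (a l i))) (Δ : ∀ l, ZDat n (a l) (m l) (f l)) (q s : ℕ) :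
    ∃ C₀ : ℕ, ∀ (δ : ℕ) (b : Fin N → Fin s → ℕ), (∀ l i, 2 ≤ b l i) → ∀ (w : Fin q → ℂ) (Y : ℕ), 16 ≤ Y →
      ∀ Λ : Fin N → Finset ℚ,
      (∀ l, ∀ x ∈ Λ l, ∃ u v : Fin s → ℕ, x = (pp (b l) u : ℚ) / pp (b l) v ∧ pp (b l) v ≤ Y ∧
        pp (b l) u ^ ((δ + 2) ^ C₀) ≤ pp (b l) v) →
      (((Fintype.piFinset Λ).filter fun t =>
        RelK δ w (fun p : Fin N × Sy n => vQ (Δ p.1) ((t p.1 : ℚ) : ℝ) p.2)).card : ℝ) ≤
        ((δ : ℝ) + 2) ^ C₀ * Real.log (Real.log Y) * ∑ j, ∏ i, if i = j then (1 : ℝ) else ((Λ i).card : ℝ) := by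
  set Q : ℕ := q + N * Fintype.card (Sy n) with hQ
  choose G hG hsep using fun l => exists_G (a l) fun i => ne_zero_of_gap (h0 l) i
  choose E₀ hE₀p hE₀ using fun l => one_window hn (ha l) (h0 l) (hf l) (Δ l) (hG l) (hsep l) Q
  set E : ℕ → ℕ := fun δ => ∑ l, E₀ l ((N + 2) * δ) + 1 with hEdef
  have hEp : PB E := (PB.sum _ fun l _ => (hE₀p l).comp ((PB.const (N + 2)).mul PB.id)).add (PB.const 1)
  set τ : ℕ := ∑ l, G l ^ s * Q with hτ
  set M : ℕ → ℕ := fun δ => (12 * E δ + 1) ^ (2 * s) + 3 * τ * (8 * E δ * (s + 1) + 1) ^ s with hM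
  have hMp : PB M := by
    have h1 : PB fun δ => (12 * E δ + 1) ^ (2 * s) := (((PB.const 12).mul hEp).add (PB.const 1)).pow (2 * s)
    have h2 : PB fun δ => (8 * E δ * (s + 1) + 1) ^ s :=
      ((((PB.const 8).mul hEp).mul (PB.const (s + 1))).add (PB.const 1)).pow s
    exact h1.add ((PB.const (3 * τ)).mul h2)
  obtain ⟨C₀, hC⟩ := hMp.add ((PB.const 4).mul (hEp.mul (PB.const (s + 1))))
  refine ⟨C₀, fun δ b hb w Y hY Λ hΛ => ?_⟩
  have hCδ : M δ + 4 * (E δ * (s + 1)) ≤ (δ + 2) ^ C₀ := hC δ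
  have hLL := loglog16 hY
  set LL := Real.log (Real.log Y) with hLLd
  have hE1 : 1 ≤ E δ := Nat.le_add_left _ _
  have h1 := tup_fam δ ⌊(M δ : ℝ) * LL⌋₊ Q ((N + 1) * δ) N Λ
    (fun l (x : ℚ) => vQ (Δ l) ((x : ℚ) : ℝ)) (fun l w' => by
      apply Nat.le_floor
      have h2 := cov s (E δ) τ hE1 (b l) (hb l) Y hY
        ((Λ l).filter fun x => BadW δ δ ((N + 1) * δ) w' (vQ (Δ l) ((x : ℚ) : ℝ)))
        (fun x hx => by
          obtain ⟨u, v, e1, e2, e3⟩ := hΛ l x (Finset.mem_filter.1 hx).1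
          refine ⟨u, v, e1, e2, (Nat.pow_le_pow_right (pp_pos (hb l) u) ?_).trans e3⟩
          have h4 : 4 * E δ * (s + 1) = 4 * (E δ * (s + 1)) := by ring
          omega)
        (fun c H hH W hW hWx => by
          have h3 := sunit_window (hG l) (b l) (hb l) (fun y => RelK ((N + 2) * δ) w' (vQ (Δ l) y))
            (E₀ l ((N + 2) * δ)) Q H c (fun t ht => hE₀ l ((N + 2) * δ) w' H t ht)
            (le_trans (Nat.pow_le_pow_right (by omega) (by
              have h4 : E₀ l ((N + 2) * δ) ≤ ∑ l, E₀ l ((N + 2) * δ) :=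
                Finset.single_le_sum (f := fun l => E₀ l ((N + 2) * δ)) (fun _ _ => Nat.zero_le _) (Finset.mem_univ l)
              show E₀ l ((N + 2) * δ) ≤ ∑ l, E₀ l ((N + 2) * δ) + 1
              omega)) hH) W hWx (fun x hx => by
              have h5 := (Finset.mem_filter.1 (hW hx)).2
              exact badW_relK (δ' := (N + 2) * δ) h5 (Nat.le_mul_of_pos_left δ (by omega)) (le_of_eq (by ring)))
          refine h3.trans ?_
          exact Finset.single_le_sum (f := fun l => G l ^ s * Q) (fun _ _ => Nat.zero_le _) (Finset.mem_univ l))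
      exact h2) δ (Fin q) w (by rw [Fintype.card_fin]) (le_of_eq (by ring))
  have h2 : (((Fintype.piFinset Λ).filter fun t =>
      RelK δ w (fun p : Fin N × Sy n => vQ (Δ p.1) ((t p.1 : ℚ) : ℝ) p.2)).card : ℝ) ≤
        ⌊(M δ : ℝ) * LL⌋₊ * ∑ j, ∏ i, if i = j then (1 : ℝ) else ((Λ i).card : ℝ) := by
    have h3 : ((Fintype.piFinset Λ).filter fun t =>
        RelK δ w (fun p : Fin N × Sy n => vQ (Δ p.1) ((t p.1 : ℚ) : ℝ) p.2)).card ≤
          ⌊(M δ : ℝ) * LL⌋₊ * ∑ j, ∏ i, if i = j then 1 else (Λ i).card := by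
      refine (Finset.card_le_card fun t ht => ?_).trans h1
      obtain ⟨ht1, ht2⟩ := Finset.mem_filter.1 ht
      exact Finset.mem_filter.2 ⟨ht1, relK_badW ht2⟩
    exact_mod_cast h3
  have h5 : (0 : ℝ) ≤ ∑ j, ∏ i, if i = j then (1 : ℝ) else ((Λ i).card : ℝ) :=
    Finset.sum_nonneg fun j _ => Finset.prod_nonneg fun i _ => by split_ifs <;> positivity
  refine h2.trans (mul_le_mul_of_nonneg_right ?_ h5)
  have h3 : (⌊(M δ : ℝ) * LL⌋₊ : ℝ) ≤ M δ * LL := Nat.floor_le (by positivity)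
  have h4 : (M δ : ℝ) ≤ ((δ : ℝ) + 2) ^ C₀ := by
    have : M δ ≤ (δ + 2) ^ C₀ := by omega
    exact_mod_cast this
  exact h3.trans (mul_le_mul_of_nonneg_right h4 (by linarith))

end Pool.Agent.D0H75.HS
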